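import Mathlib

/-! Counterexample to Haehnle's conjecture on connected layer multicomplexes (rank three).
Basic definitions: phases and cells. -/

set_option autoImplicit false

namespace Pool.Agent.HAE

/-- The statement of the conjecture (frozen statement S08751). -/
def Conj : Prop :=
    ∀ (n d k : ℕ) (L : ℕ → Finset (Multiset (Fin n))),
      (∀ i, i ≤ k → (L i).Nonempty) →
      (∀ i, i ≤ k → ∀ F ∈ L i, Multiset.card F = d) →
      (∀ i j, i ≤ k → j ≤ k → i ≠ j → Disjoint (L i) (L j)) →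
      (∀ (S : Multiset (Fin n)) (i j l : ℕ), i ≤ l → l ≤ j → j ≤ k →
        (∃ F ∈ L i, S ≤ F) → (∃ F ∈ L j, S ≤ F) → ∃ F ∈ L l, S ≤ F) →
      k ≤ d * (n - 1)

/-- A phase: a symmetric system of timed triples of distinct vertices. Every vertex of the
support `U` is alive in an order connected set of times that contains `0` and `len`. -/
structure Phase (V : Type) where
  R : ℤ → V → V → V → Prop
  U : Set V
  len : ℕ
  symL : ∀ t x y z, R t x y z → R t y x z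
  symR : ∀ t x y z, R t x y z → R t x z y
  ne : ∀ t x y z, R t x y z → x ≠ y
  uniq : ∀ t t' x y z, R t x y z → R t' x y z → t = t'
  supp : ∀ t x y z, R t x y z → x ∈ U
  pair : ∀ x y, Set.OrdConnected {t : ℤ | ∃ z, R t x y z}
  vert : ∀ x, Set.OrdConnected {t : ℤ | ∃ y z, R t x y z}
  at0 : ∀ x ∈ U, ∃ y z, R 0 x y z
  atLen : ∀ x ∈ U, ∃ y z, R len x y z
  nonemp : U.Nonempty

/-- A cell: a finite set of columns with labelings of singletons, pairs and triples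
by integers such that the labels seen by a column / a pair of columns form an interval. -/
structure Cell (C : Type) where
  N : ℕ
  p : ℕ
  hN : 0 < N
  hp : 0 < p
  st : C → ℤ
  T1 : C → ℤ
  T2 : C → C → ℤ
  T3 : C → C → C → ℤ
  T1_mem : ∀ a, 0 ≤ T1 a ∧ T1 a < (p : ℤ) * N
  T1_surj : ∀ m : ℤ, 0 ≤ m → m < (p : ℤ) * N → ∃ a, T1 a = m
  T2_symm : ∀ a b, T2 a b = T2 b a
  T2_mem : ∀ a b, a ≠ b → st a ≤ T2 a b ∧ T2 a b < st a + (p : ℤ) * N
  T2_surj : ∀ (a : C) (m : ℤ), st a ≤ m → m < st a + (p : ℤ) * N → ∃ b, b ≠ a ∧ T2 a b = m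
  T3_symL : ∀ a b c, T3 a b c = T3 b a c
  T3_symR : ∀ a b c, T3 a b c = T3 a c b
  T3_mem : ∀ a b c, a ≠ b → a ≠ c → b ≠ c →
    st a + st b ≤ T3 a b c ∧ T3 a b c < st a + st b + (p : ℤ) * N
  T3_surj : ∀ (a b : C) (m : ℤ), a ≠ b → st a + st b ≤ m → m < st a + st b + (p : ℤ) * N →
    ∃ c, c ≠ a ∧ c ≠ b ∧ T3 a b c = m
  st_mem : ∀ a, 0 ≤ st a ∧ st a ≤ (p : ℤ) * (N - 1)
  st_surj : ∀ (a : C) (m : ℤ), 0 ≤ m → m < (p : ℤ) * (2 * N - 1) →
    ∃ b, b ≠ a ∧ st b ≤ m ∧ m < st b + (p : ℤ) * N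

end Pool.Agent.HAE
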