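import Mathlib
import Pool.Agent.Lib.MP_51ebd4_co.HAE.Defs

set_option autoImplicit false

namespace Pool.Agent.HAE

/-- The relation of the phase ALL. -/
def AllR {C : Type} (c : Cell C) (Q : ℕ) (tt : C → ZMod Q) (Rn δ : ℕ)
    (t : ℤ) (x y z : C × ZMod Q) : Prop :=
  x.1 ≠ y.1 ∧ x.1 ≠ z.1 ∧ y.1 ≠ z.1 ∧ ∃ r : ℕ, r < Rn ∧
    y.2 - x.2 = ((r : ZMod Q) + 2) * (tt y.1 - tt x.1) ∧
    z.2 - x.2 = ((r : ZMod Q) + 2) * (tt z.1 - tt x.1) ∧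
    t = (r : ℤ) * ((c.p : ℤ) * (2 * (c.N : ℤ) - 1)) + c.T3 x.1 y.1 z.1 - δ

theorem allR_r_eq {Q : ℕ} [Fact Q.Prime] {Rn : ℕ} (hR : Rn + 2 ≤ Q) {r r' : ℕ}
    (hr : r < Rn) (hr' : r' < Rn) {D E : ZMod Q} (hD : D ≠ 0)
    (h : E = ((r : ZMod Q) + 2) * D) (h' : E = ((r' : ZMod Q) + 2) * D) : r = r' := by
  have h1 : ((r : ZMod Q) + 2) * D = ((r' : ZMod Q) + 2) * D := by rw [← h, ← h']
  have h2 := mul_right_cancel₀ hD h1
  have h3 : ((r : ℕ) : ZMod Q) = ((r' : ℕ) : ZMod Q) := by linear_combination h2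
  rw [ZMod.natCast_eq_natCast_iff'] at h3
  rwa [Nat.mod_eq_of_lt (by omega), Nat.mod_eq_of_lt (by omega)] at h3

theorem allR_vert {C : Type} (c : Cell C) (Q : ℕ) [Fact Q.Prime]
    (tt : C → ZMod Q) (Rn δ : ℕ) (x : C × ZMod Q) (t : ℤ) :
    (∃ y z, AllR c Q tt Rn δ t x y z) ↔
      c.st x.1 - δ ≤ t ∧
      t < c.st x.1 - δ + (Rn : ℤ) * ((c.p : ℤ) * (2 * (c.N : ℤ) - 1)) := by
  have hN : (1 : ℤ) ≤ c.N := by exact_mod_cast c.hN
  have hp : (1 : ℤ) ≤ c.p := by exact_mod_cast c.hp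
  set P : ℤ := (c.p : ℤ) * (2 * (c.N : ℤ) - 1) with hP
  have hPpos : 0 < P := by rw [hP]; exact mul_pos (by linarith) (by linarith)
  constructor
  · rintro ⟨y, z, hxy, hxz, hyz, r, hr, h1, h2, ht⟩
    have hT := c.T3_mem x.1 y.1 z.1 hxy hxz hyz
    have hs := c.st_mem y.1
    have hr' : (r : ℤ) + 1 ≤ Rn := by exact_mod_cast hr
    have hr0 : (0 : ℤ) ≤ r := by positivity
    have h3 : ((r : ℤ) + 1) * P ≤ Rn * P := mul_le_mul_of_nonneg_right hr' hPpos.le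
    have h4 : 0 ≤ (r : ℤ) * P := mul_nonneg hr0 hPpos.le
    rw [← hP] at ht
    constructor
    · linarith [hT.1, hs.1]
    · have h5 : c.T3 x.1 y.1 z.1 < c.st x.1 + P := by
        have h6 : c.T3 x.1 y.1 z.1 < c.st x.1 + c.st y.1 + (c.p : ℤ) * c.N := hT.2
        have h7 : c.st y.1 ≤ (c.p : ℤ) * (c.N - 1) := hs.2
        rw [hP]
        linarith
      linarith
  · rintro ⟨h1, h2⟩
    set u : ℤ := t + δ - c.st x.1 with hu
    have hu0 : 0 ≤ u := by linarith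
    have huR : u < Rn * P := by linarith
    have hm0 := Int.emod_nonneg u hPpos.ne'
    have hm1 := Int.emod_lt_of_pos u hPpos
    have hdm := Int.emod_add_mul_ediv u P
    have hq0 : 0 ≤ u / P := Int.ediv_nonneg hu0 hPpos.le
    have hq1 : u / P < Rn := Int.ediv_lt_of_lt_mul hPpos huR
    obtain ⟨r, hr⟩ := Int.eq_ofNat_of_zero_le hq0
    obtain ⟨b, hbx, hb1, hb2⟩ := c.st_surj x.1 (u % P) hm0 hm1
    obtain ⟨d, hdx, hdb, hd⟩ := c.T3_surj x.1 b (c.st x.1 + u % P) hbx.symm (by linarith)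
      (by linarith)
    refine ⟨(b, x.2 + ((r : ZMod Q) + 2) * (tt b - tt x.1)),
      (d, x.2 + ((r : ZMod Q) + 2) * (tt d - tt x.1)), hbx.symm, hdx.symm, hdb.symm, r, ?_, ?_, ?_, ?_⟩
    · rw [hr] at hq1
      exact_mod_cast hq1
    · simp
    · simp
    · show t = (r : ℤ) * P + c.T3 x.1 b d - δ
      rw [hd]
      rw [hr] at hdm
      try simp only [Int.ofNat_eq_natCast] at hdm
      linarith

/-- The phase in which a group `C × F_Q` runs through the lines of slopes `2, ..., Rn + 1`. -/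
theorem exists_all {C : Type} [Nonempty C] (c : Cell C) (Q : ℕ) [Fact Q.Prime]
    (tt : C → ZMod Q) (htt : Function.Injective tt) (Rn δ : ℕ) (hR : Rn + 2 ≤ Q)
    (hδ : c.p * c.N ≤ δ) (hlen : δ + 1 ≤ Rn * (c.p * (2 * c.N - 1))) :
    ∃ Φ : Phase (C × ZMod Q), Φ.U = Set.univ ∧
      Φ.len = Rn * (c.p * (2 * c.N - 1)) - 1 - δ ∧
      ∀ t x y z, Φ.R t x y z → x.1 ≠ y.1 ∧
        ∃ r : ℕ, r < Rn ∧ y.2 - x.2 = ((r : ZMod Q) + 2) * (tt y.1 - tt x.1) := by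
  have hN1 : 1 ≤ c.N := c.hN
  have hN : (1 : ℤ) ≤ c.N := by exact_mod_cast c.hN
  have hp : (1 : ℤ) ≤ c.p := by exact_mod_cast c.hp
  have hD : ∀ {a b : C}, a ≠ b → tt b - tt a ≠ 0 := fun {a b} hab h =>
    hab (htt (sub_eq_zero.mp h)).symm
  have hlenZ : (((Rn * (c.p * (2 * c.N - 1)) - 1 - δ : ℕ)) : ℤ) =
      (Rn : ℤ) * ((c.p : ℤ) * (2 * (c.N : ℤ) - 1)) - 1 - δ := by
    have h1 : 1 ≤ Rn * (c.p * (2 * c.N - 1)) := by omega
    rw [Nat.cast_sub (by omega), Nat.cast_sub h1]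
    push_cast [Nat.cast_sub (show 1 ≤ 2 * c.N by omega)]
    ring
  have hδZ : (c.p : ℤ) * c.N ≤ δ := by exact_mod_cast hδ
  have hlenZ2 : (δ : ℤ) + 1 ≤ (Rn : ℤ) * ((c.p : ℤ) * (2 * (c.N : ℤ) - 1)) := by
    have h1 : ((δ + 1 : ℕ) : ℤ) ≤ ((Rn * (c.p * (2 * c.N - 1)) : ℕ) : ℤ) := by exact_mod_cast hlen
    push_cast [Nat.cast_sub (show 1 ≤ 2 * c.N by omega)] at h1
    linarith
  refine ⟨⟨AllR c Q tt Rn δ, Set.univ, Rn * (c.p * (2 * c.N - 1)) - 1 - δ, ?_, ?_, ?_, ?_, ?_,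
    ?_, ?_, ?_, ?_, ?_⟩, rfl, rfl, ?_⟩
  · rintro t x y z ⟨h1, h2, h3, r, hr, h4, h5, h6⟩
    refine ⟨h1.symm, h3, h2, r, hr, by linear_combination -h4, by linear_combination h5 - h4, ?_⟩
    rw [c.T3_symL y.1 x.1 z.1]
    exact h6
  · rintro t x y z ⟨h1, h2, h3, r, hr, h4, h5, h6⟩
    refine ⟨h2, h1, h3.symm, r, hr, h5, h4, ?_⟩
    rw [c.T3_symR x.1 z.1 y.1]
    exact h6
  · rintro t x y z ⟨h1, _⟩ h
    exact h1 (congrArg Prod.fst h)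
  · rintro t t' x y z ⟨h1, h2, h3, r, hr, h4, h5, h6⟩ ⟨h1', h2', h3', r', hr', h4', h5', h6'⟩
    have := allR_r_eq hR hr hr' (hD h1) h4 h4'
    subst this
    rw [h6, h6']
  · intro t x y z _
    exact Set.mem_univ _
  · intro x y
    refine ⟨?_⟩
    rintro t1 ⟨z1, h1, h2, h3, r, hr, h4, h5, h6⟩ t2
      ⟨z2, h1', h2', h3', r', hr', h4', h5', h6'⟩ t ⟨ht1, ht2⟩
    have := allR_r_eq hR hr hr' (hD h1) h4 h4'
    subst this
    have hm1 := c.T3_mem x.1 y.1 z1.1 h1 h2 h3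
    have hm2 := c.T3_mem x.1 y.1 z2.1 h1' h2' h3'
    obtain ⟨d, hdx, hdy, hd⟩ := c.T3_surj x.1 y.1
      (t + δ - (r : ℤ) * ((c.p : ℤ) * (2 * (c.N : ℤ) - 1))) h1 (by linarith) (by linarith)
    refine ⟨(d, x.2 + ((r : ZMod Q) + 2) * (tt d - tt x.1)), h1, hdx.symm, hdy.symm, r, hr, h4,
      by simp, ?_⟩
    show t = (r : ℤ) * ((c.p : ℤ) * (2 * (c.N : ℤ) - 1)) + c.T3 x.1 y.1 d - δ
    rw [hd]
    ring
  · intro x
    have : {t : ℤ | ∃ y z, AllR c Q tt Rn δ t x y z} =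
        Set.Ico (c.st x.1 - δ) (c.st x.1 - δ + (Rn : ℤ) * ((c.p : ℤ) * (2 * (c.N : ℤ) - 1))) := by
      ext t
      exact allR_vert c Q tt Rn δ x t
    rw [this]
    exact Set.ordConnected_Ico
  · intro x _
    rw [allR_vert]
    have hs := c.st_mem x.1
    have h1 : (c.p : ℤ) * (c.N - 1) ≤ (c.p : ℤ) * c.N := by nlinarith
    constructor <;> linarith [hs.1, hs.2]
  · intro x _
    rw [allR_vert, hlenZ]
    have hs := c.st_mem x.1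
    have h1 : (c.p : ℤ) * (c.N - 1) ≤ (c.p : ℤ) * c.N := by nlinarith
    constructor <;> linarith [hs.1, hs.2]
  · obtain ⟨a⟩ := ‹Nonempty C›
    exact ⟨(a, 0), Set.mem_univ _⟩
  · rintro t x y z ⟨h1, h2, h3, r, hr, h4, h5, h6⟩
    exact ⟨h1, r, hr, h4⟩

end Pool.Agent.HAE
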