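import Mathlib

set_option autoImplicit false

namespace Pool.Agent.HAE

/-- nonzero squares modulo 31 -/
def Lam_q (t : ZMod 31) : Bool :=
  decide (t ∈ ({1, 2, 4, 5, 7, 8, 9, 10, 14, 16, 18, 19, 20, 25, 28} : List (ZMod 31)))

theorem Lam_q16 : ∀ t : ZMod 31, Lam_q (16 * t) = Lam_q t := by decide

theorem Lam_qneg : ∀ t : ZMod 31, t ≠ 0 → Lam_q (-t) = !Lam_q t := by decide

theorem Lam_31 : (31 : ZMod 31) = 0 := by decide

/-- label of two finite points and one infinite point -/
def Lam_g (b : Bool) (x y : ZMod 31) : ZMod 31 :=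
  if (Lam_q (x - y)) = !b then 2 * x + y else x + 2 * y

theorem Lam_g_symm (b : Bool) (x y : ZMod 31) : Lam_g b x y = Lam_g b y x := by
  by_cases h : x = y
  · subst h; rfl
  · have h1 : Lam_q (y - x) = !Lam_q (x - y) := by
      rw [← Lam_qneg _ (sub_ne_zero.2 h)]
      congr 1
      ring
    unfold Lam_g
    rw [h1]
    cases b <;> cases Lam_q (x - y) <;> simp [add_comm]

def Lam_l1 : ZMod 31 ⊕ Bool → ZMod 31
  | Sum.inl x => x
  | Sum.inr _ => 0

def Lam_l2 : ZMod 31 ⊕ Bool → ZMod 31 ⊕ Bool → ZMod 31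
  | Sum.inl x, Sum.inl y => x + y
  | Sum.inl x, Sum.inr false => 2 * x
  | Sum.inl x, Sum.inr true => x
  | Sum.inr false, Sum.inl x => 2 * x
  | Sum.inr true, Sum.inl x => x
  | Sum.inr _, Sum.inr _ => 0

def Lam_l3 : ZMod 31 ⊕ Bool → ZMod 31 ⊕ Bool → ZMod 31 ⊕ Bool → ZMod 31
  | Sum.inl x, Sum.inl y, Sum.inl z => x + y + z
  | Sum.inl x, Sum.inl y, Sum.inr b => Lam_g b x y
  | Sum.inl x, Sum.inr b, Sum.inl y => Lam_g b x y
  | Sum.inr b, Sum.inl x, Sum.inl y => Lam_g b x y
  | Sum.inl x, Sum.inr _, Sum.inr _ => 3 * x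
  | Sum.inr _, Sum.inl x, Sum.inr _ => 3 * x
  | Sum.inr _, Sum.inr _, Sum.inl x => 3 * x
  | Sum.inr _, Sum.inr _, Sum.inr _ => 0

theorem Lam_l3_symL (a b c : ZMod 31 ⊕ Bool) : Lam_l3 a b c = Lam_l3 b a c := by
  rcases a with x | x <;> rcases b with y | y <;> rcases c with z | z <;>
    simp only [Lam_l3, Lam_g_symm]
  ring

theorem Lam_l3_symR (a b c : ZMod 31 ⊕ Bool) : Lam_l3 a b c = Lam_l3 a c b := by
  rcases a with x | x <;> rcases b with y | y <;> rcases c with z | z <;>
    simp only [Lam_l3, Lam_g_symm]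
  ring

theorem Lam_surj_inf (x m : ZMod 31) (b : Bool) :
    ∃ c : ZMod 31 ⊕ Bool, c ≠ Sum.inl x ∧ c ≠ Sum.inr b ∧ Lam_l3 (Sum.inl x) (Sum.inr b) c = m := by
  by_cases h : m = 3 * x
  · refine ⟨Sum.inr (!b), by simp, by simp, ?_⟩
    simp [Lam_l3, h]
  · have h31 := Lam_31
    by_cases hq : Lam_q (3 * x - m) = !b
    · refine ⟨Sum.inl (m - 2 * x), ?_, by simp, ?_⟩
      · intro h1
        have h2 := Sum.inl_injective h1
        apply h
        linear_combination h2
      · simp only [Lam_l3, Lam_g]
        have h2 : x - (m - 2 * x) = 3 * x - m := by ring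
        rw [h2, if_pos hq]
        ring
    · have hne : m - 3 * x ≠ 0 := sub_ne_zero.2 h
      have h3 : Lam_q (16 * (m - x) - x) = !Lam_q (3 * x - m) := by
        have h4 : 16 * (m - x) - x = 16 * (m - 3 * x) := by
          linear_combination x * h31
        rw [h4, Lam_q16]
        have h5 := Lam_qneg _ hne
        rw [show -(m - 3 * x) = 3 * x - m by ring] at h5
        rw [h5, Bool.not_not]
      have hne2 : 16 * (m - x) - x ≠ 0 := by
        intro h4
        apply hne
        linear_combination 2 * h4 - (m - x) * h31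
      refine ⟨Sum.inl (16 * (m - x)), ?_, by simp, ?_⟩
      · intro h1
        have h2 := Sum.inl_injective h1
        exact hne2 (sub_eq_zero.2 h2)
      · simp only [Lam_l3, Lam_g]
        have h4 : Lam_q (x - 16 * (m - x)) = Lam_q (3 * x - m) := by
          have h5 := Lam_qneg _ hne2
          rw [show -(16 * (m - x) - x) = x - 16 * (m - x) by ring] at h5
          rw [h5, h3, Bool.not_not]
        rw [h4, if_neg hq]
        linear_combination (m - x) * h31

/-- Labelings of the points, pairs and triples of a set of 33 points by `ZMod 31`: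
every point sees all pair labels and every pair sees all triple labels
(large set of Steiner triple systems of Schreiber and Wilson). -/
theorem exists_lam : ∃ (l1 : ZMod 31 ⊕ Bool → ZMod 31)
    (l2 : ZMod 31 ⊕ Bool → ZMod 31 ⊕ Bool → ZMod 31)
    (l3 : ZMod 31 ⊕ Bool → ZMod 31 ⊕ Bool → ZMod 31 ⊕ Bool → ZMod 31),
    (∀ m, ∃ a, l1 a = m) ∧ (∀ a b, l2 a b = l2 b a) ∧
    (∀ a m, ∃ b, b ≠ a ∧ l2 a b = m) ∧
    (∀ a b c, l3 a b c = l3 b a c) ∧ (∀ a b c, l3 a b c = l3 a c b) ∧
    (∀ a b m, a ≠ b → ∃ c, c ≠ a ∧ c ≠ b ∧ l3 a b c = m) := by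
  have h31 := Lam_31
  refine ⟨Lam_l1, Lam_l2, Lam_l3, ?_, ?_, ?_, Lam_l3_symL, Lam_l3_symR, ?_⟩
  · intro m
    exact ⟨Sum.inl m, rfl⟩
  · intro a b
    rcases a with x | (_ | _) <;> rcases b with y | (_ | _) <;> simp only [Lam_l2]
    ring
  · intro a m
    rcases a with x | (_ | _)
    · by_cases h : m = 2 * x
      · exact ⟨Sum.inr false, by simp, by simp [Lam_l2, h]⟩
      · refine ⟨Sum.inl (m - x), ?_, ?_⟩
        · intro h1
          have h2 := Sum.inl_injective h1
          apply h
          linear_combination h2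
        · simp only [Lam_l2]; ring
    · refine ⟨Sum.inl (16 * m), by simp, ?_⟩
      simp only [Lam_l2]
      linear_combination m * h31
    · exact ⟨Sum.inl m, by simp, rfl⟩
  · intro a b m hab
    rcases a with x | b₁
    · rcases b with y | b₂
      · by_cases hx : m - x - y = x
        · have hm : m = 2 * x + y := by linear_combination hx
          by_cases hq : Lam_q (x - y) = true
          · refine ⟨Sum.inr false, by simp, by simp, ?_⟩
            simp only [Lam_l3, Lam_g, hq]
            simp [hm]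
          · rw [Bool.not_eq_true] at hq
            refine ⟨Sum.inr true, by simp, by simp, ?_⟩
            simp only [Lam_l3, Lam_g, hq]
            simp [hm]
        · by_cases hy : m - x - y = y
          · have hm : m = x + 2 * y := by linear_combination hy
            by_cases hq : Lam_q (x - y) = true
            · refine ⟨Sum.inr true, by simp, by simp, ?_⟩
              simp only [Lam_l3, Lam_g, hq]
              simp [hm]
            · rw [Bool.not_eq_true] at hq
              refine ⟨Sum.inr false, by simp, by simp, ?_⟩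
              simp only [Lam_l3, Lam_g, hq]
              simp [hm]
          · refine ⟨Sum.inl (m - x - y), ?_, ?_, ?_⟩
            · intro h1
              exact hx (Sum.inl_injective h1)
            · intro h1
              exact hy (Sum.inl_injective h1)
            · simp only [Lam_l3]; ring
      · exact Lam_surj_inf x m b₂
    · rcases b with y | b₂
      · obtain ⟨c, h1, h2, h3⟩ := Lam_surj_inf y m b₁
        exact ⟨c, h2, h1, by rw [Lam_l3_symL]; exact h3⟩
      · refine ⟨Sum.inl (21 * m), by simp, by simp, ?_⟩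
        simp only [Lam_l3]
        linear_combination 2 * m * h31

end Pool.Agent.HAE
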