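import Mathlib
import Pool.Agent.Lib.MP_51ebd4_co.HAE.Defs
import Pool.Agent.Lib.MP_51ebd4_co.HAE.Lam

set_option autoImplicit false

namespace Pool.Agent.HAE

theorem CellFin_decomp (N : ℕ) (m : ℤ) (h0 : 0 ≤ m) (h1 : m < 31 * N) :
    ∃ (k : Fin N) (μ : ZMod 31), m = 31 * (k.val : ℤ) + (μ.val : ℤ) := by
  refine ⟨⟨(m / 31).toNat, ?_⟩, ((m % 31).toNat : ZMod 31), ?_⟩
  · omega
  · have h2 : ((m % 31).toNat : ZMod 31).val = (m % 31).toNat := by
      rw [ZMod.val_natCast]
      apply Nat.mod_eq_of_lt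
      omega
    rw [h2]
    simp only
    omega

theorem CellFin_val (μ : ZMod 31) : 0 ≤ (μ.val : ℤ) ∧ (μ.val : ℤ) < 31 := by
  have := ZMod.val_lt μ
  omega

/-- The cell on `N` blocks of 33 columns. -/
theorem exists_cell (N : ℕ) (hN : 0 < N) :
    ∃ c : Cell (Fin N × (ZMod 31 ⊕ Bool)), c.N = N ∧ c.p = 31 := by
  obtain ⟨l1, l2, l3, hl1, hl2s, hl2, hl3L, hl3R, hl3⟩ := exists_lam
  let L2 : Fin N × (ZMod 31 ⊕ Bool) → Fin N × (ZMod 31 ⊕ Bool) → ZMod 31 := fun a b =>
    if a.1 = b.1 then l2 a.2 b.2 else l1 a.2 + l1 b.2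
  let L3 : Fin N × (ZMod 31 ⊕ Bool) → Fin N × (ZMod 31 ⊕ Bool) → Fin N × (ZMod 31 ⊕ Bool) →
      ZMod 31 := fun a b c =>
    if a.1 = b.1 then (if b.1 = c.1 then l3 a.2 b.2 c.2 else l2 a.2 b.2 + l1 c.2)
    else if b.1 = c.1 then l2 b.2 c.2 + l1 a.2
    else if a.1 = c.1 then l2 a.2 c.2 + l1 b.2 else l1 a.2 + l1 b.2 + l1 c.2
  have hL2s : ∀ a b, L2 a b = L2 b a := by
    intro a b
    simp only [L2]
    by_cases h : a.1 = b.1
    · rw [if_pos h, if_pos h.symm, hl2s]
    · rw [if_neg h, if_neg (fun h' => h h'.symm), add_comm]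
  have hL3L : ∀ a b c, L3 a b c = L3 b a c := by
    rintro ⟨i, x⟩ ⟨j, y⟩ ⟨k, z⟩
    simp only [L3]
    by_cases h1 : i = j
    · subst h1
      by_cases h2 : i = k
      · subst h2
        simp [hl3L]
      · simp [h2, hl2s]
    · have h1' : ¬ j = i := fun h => h1 h.symm
      by_cases h2 : j = k
      · subst h2
        simp [h1, h1']
      · by_cases h3 : i = k
        · subst h3
          simp [h1, h1']
        · simp [h1, h1', h2, h3]
          ring
  have hL3R : ∀ a b c, L3 a b c = L3 a c b := by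
    rintro ⟨i, x⟩ ⟨j, y⟩ ⟨k, z⟩
    simp only [L3]
    by_cases h1 : i = j
    · subst h1
      by_cases h2 : i = k
      · subst h2
        simp [hl3R]
      · have h2' : ¬ k = i := fun h => h2 h.symm
        simp [h2, h2']
    · have h1' : ¬ j = i := fun h => h1 h.symm
      by_cases h2 : j = k
      · subst h2
        simp [h1, hl2s]
      · have h2' : ¬ k = j := fun h => h2 h.symm
        by_cases h3 : i = k
        · subst h3
          simp [h1, h1']
        · simp [h1, h2, h2', h3]
          ring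
  refine ⟨{
    N := N
    p := 31
    hN := hN
    hp := by norm_num
    st := fun a => 31 * (a.1.val : ℤ)
    T1 := fun a => 31 * (a.1.val : ℤ) + ((l1 a.2).val : ℤ)
    T2 := fun a b => 31 * ((a.1.val : ℤ) + b.1.val) + ((L2 a b).val : ℤ)
    T3 := fun a b c => 31 * ((a.1.val : ℤ) + b.1.val + c.1.val) + ((L3 a b c).val : ℤ)
    T1_mem := ?_
    T1_surj := ?_
    T2_symm := ?_
    T2_mem := ?_
    T2_surj := ?_
    T3_symL := ?_
    T3_symR := ?_
    T3_mem := ?_
    T3_surj := ?_
    st_mem := ?_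
    st_surj := ?_ }, rfl, rfl⟩
  · intro a
    have h1 := CellFin_val (l1 a.2)
    have h2 := a.1.2
    push_cast
    omega
  · intro m h0 h1
    obtain ⟨k, μ, hm⟩ := CellFin_decomp N m h0 (by push_cast at h1; exact h1)
    obtain ⟨x, hx⟩ := hl1 μ
    refine ⟨(k, x), ?_⟩
    simp only [hx]
    exact hm.symm
  · intro a b
    rw [hL2s, add_comm (a.1.val : ℤ)]
  · intro a b _
    have h1 := CellFin_val (L2 a b)
    have h2 := a.1.2
    have h3 := b.1.2
    push_cast
    omega
  · rintro ⟨i, x⟩ m h0 h1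
    simp only at h0 h1
    obtain ⟨k, μ, hm⟩ := CellFin_decomp N (m - 31 * i.val) (by omega) (by push_cast at h1; omega)
    by_cases hk : i = k
    · subst hk
      obtain ⟨y, hy1, hy2⟩ := hl2 x μ
      refine ⟨(i, y), ?_, ?_⟩
      · intro h
        exact hy1 (congrArg Prod.snd h)
      · simp only [L2, if_true, hy2]
        omega
    · obtain ⟨y, hy⟩ := hl1 (μ - l1 x)
      refine ⟨(k, y), ?_, ?_⟩
      · intro h
        exact hk (congrArg Prod.fst h).symm
      · simp only [L2, if_neg hk, hy, add_sub_cancel]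
        omega
  · intro a b c
    rw [hL3L, add_comm (a.1.val : ℤ)]
  · intro a b c
    rw [hL3R, add_right_comm (a.1.val : ℤ)]
  · intro a b c _ _ _
    have h1 := CellFin_val (L3 a b c)
    have h2 := a.1.2
    have h3 := b.1.2
    have h4 := c.1.2
    push_cast
    omega
  · rintro ⟨i, x⟩ ⟨j, y⟩ m hab h0 h1
    simp only at h0 h1
    obtain ⟨k, μ, hm⟩ := CellFin_decomp N (m - 31 * i.val - 31 * j.val) (by omega)
      (by push_cast at h1; omega)
    by_cases hij : i = j
    · subst hij
      have hxy : x ≠ y := fun h => hab (by rw [h])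
      by_cases hk : i = k
      · subst hk
        obtain ⟨z, hz1, hz2, hz3⟩ := hl3 x y μ hxy
        refine ⟨(i, z), fun h => hz1 (congrArg Prod.snd h), fun h => hz2 (congrArg Prod.snd h), ?_⟩
        simp only [L3, if_true, hz3]
        omega
      · obtain ⟨z, hz⟩ := hl1 (μ - l2 x y)
        refine ⟨(k, z), fun h => hk (congrArg Prod.fst h).symm,
          fun h => hk (congrArg Prod.fst h).symm, ?_⟩
        simp only [L3, if_true, if_neg hk, hz, add_sub_cancel]
        omega
    · by_cases hjk : j = k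
      · subst hjk
        obtain ⟨z, hz1, hz2⟩ := hl2 y (μ - l1 x)
        refine ⟨(j, z), fun h => hij (congrArg Prod.fst h).symm,
          fun h => hz1 (congrArg Prod.snd h), ?_⟩
        simp only [L3, if_neg hij, if_true, hz2, sub_add_cancel]
        omega
      · by_cases hik : i = k
        · subst hik
          obtain ⟨z, hz1, hz2⟩ := hl2 x (μ - l1 y)
          refine ⟨(i, z), fun h => hz1 (congrArg Prod.snd h),
            fun h => hij (congrArg Prod.fst h), ?_⟩
          simp only [L3, if_neg hij, if_neg hjk, if_true, hz2, sub_add_cancel]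
          omega
        · obtain ⟨z, hz⟩ := hl1 (μ - (l1 x + l1 y))
          refine ⟨(k, z), fun h => hik (congrArg Prod.fst h).symm,
            fun h => hjk (congrArg Prod.fst h).symm, ?_⟩
          simp only [L3, if_neg hij, if_neg hjk, if_neg hik, hz, add_sub_cancel]
          omega
  · intro a
    have h2 := a.1.2
    push_cast
    omega
  · rintro ⟨i, x⟩ m h0 h1
    push_cast at h1
    obtain ⟨k, hk⟩ : ∃ k : Fin N, 31 * (k.val : ℤ) ≤ m ∧ m < 31 * (k.val : ℤ) + 31 * N := by
      by_cases hlt : m / 31 < N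
      · refine ⟨⟨(m / 31).toNat, by omega⟩, ?_⟩
        simp only
        omega
      · refine ⟨⟨N - 1, by omega⟩, ?_⟩
        simp only
        omega
    obtain ⟨y, hy, -⟩ := hl2 x 0
    refine ⟨(k, y), fun h => hy (congrArg Prod.snd h), hk.1, ?_⟩
    push_cast
    exact hk.2

end Pool.Agent.HAE
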