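import Mathlib
import Pool.Agent.Lib.MP_51ebd4_co.HAE.Defs

set_option autoImplicit false

namespace Pool.Agent.HAE

private theorem red_pair {A : Type} {y z y' z' : A} (h : ({y, z} : Multiset A) = {y', z'}) :
    (y = y' ∧ z = z') ∨ (y = z' ∧ z = y') := by
  have hy : y ∈ ({y', z'} : Multiset A) := by
    rw [← h]
    simp
  have hy2 : y = y' ∨ y = z' := by simpa using hy
  rcases hy2 with rfl | rfl
  · left
    have h1 : ({z} : Multiset A) = {z'} := (Multiset.cons_inj_right y).mp h
    exact ⟨rfl, Multiset.singleton_inj.mp h1⟩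
  · right
    have h0 : ({y', y} : Multiset A) = {y, y'} := Multiset.pair_comm y' y
    rw [h0] at h
    have h1 : ({z} : Multiset A) = {y'} := (Multiset.cons_inj_right y).mp h
    exact ⟨rfl, Multiset.singleton_inj.mp h1⟩

private theorem red_perm {A : Type} (P : A → A → A → Prop)
    (symL : ∀ x y z, P x y z → P y x z) (symR : ∀ x y z, P x y z → P x z y)
    {x y z x' y' z' : A} (h : ({x, y, z} : Multiset A) = {x', y', z'}) (hP : P x y z) :
    P x' y' z' := by
  have hx : x ∈ ({x', y', z'} : Multiset A) := by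
    rw [← h]
    simp
  have hx2 : x = x' ∨ x = y' ∨ x = z' := by simpa using hx
  rcases hx2 with rfl | rfl | rfl
  · have h1 : ({y, z} : Multiset A) = {y', z'} := (Multiset.cons_inj_right x).mp h
    rcases red_pair h1 with ⟨rfl, rfl⟩ | ⟨rfl, rfl⟩
    · exact hP
    · exact symR _ _ _ hP
  · have h0 : ({x', x, z'} : Multiset A) = {x, x', z'} := Multiset.cons_swap x' x {z'}
    rw [h0] at h
    have h1 : ({y, z} : Multiset A) = {x', z'} := (Multiset.cons_inj_right x).mp h
    rcases red_pair h1 with ⟨rfl, rfl⟩ | ⟨rfl, rfl⟩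
    · exact symL _ _ _ hP
    · exact symL _ _ _ (symR _ _ _ hP)
  · have h0 : ({x', y', x} : Multiset A) = {x, x', y'} := by
      have h2 : ({y', x} : Multiset A) = {x, y'} := Multiset.pair_comm y' x
      have h3 : ({x', y', x} : Multiset A) = x' ::ₘ {y', x} := rfl
      rw [h3, h2]
      exact Multiset.cons_swap x' x {y'}
    rw [h0] at h
    have h1 : ({y, z} : Multiset A) = {x', y'} := (Multiset.cons_inj_right x).mp h
    rcases red_pair h1 with ⟨rfl, rfl⟩ | ⟨rfl, rfl⟩
    · exact symR _ _ _ (symL _ _ _ hP)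
    · exact symL _ _ _ (symR _ _ _ (symL _ _ _ hP))

/-- A global system of timed triples with more than `3 (n - 1) + 1` consecutive nonempty layers
refutes the conjecture. -/
theorem reduction {V : Type} [Fintype V] (G : ℤ → V → V → V → Prop) (K : ℕ)
    (symL : ∀ t x y z, G t x y z → G t y x z)
    (symR : ∀ t x y z, G t x y z → G t x z y)
    (ne : ∀ t x y z, G t x y z → x ≠ y)
    (uniq : ∀ t t' x y z, G t x y z → G t' x y z → t = t')
    (pair : ∀ x y, Set.OrdConnected {t : ℤ | ∃ z, G t x y z})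
    (vert : ∀ x, Set.OrdConnected {t : ℤ | ∃ y z, G t x y z})
    (full : ∀ t : ℤ, 0 ≤ t → t ≤ K → ∃ x y z, G t x y z)
    (hK : 3 * (Fintype.card V - 1) < K) : ¬ Conj := by
  classical
  intro hConj
  have e : V ≃ Fin (Fintype.card V) := Fintype.equivFin V
  generalize Fintype.card V = n at e hK
  let H : ℤ → Fin n → Fin n → Fin n → Prop := fun t a b c =>
    G t (e.symm a) (e.symm b) (e.symm c)
  let L : ℕ → Finset (Multiset (Fin n)) := fun i =>
    ((Finset.univ : Finset (Fin n × Fin n × Fin n)).filter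
      (fun q => H (i : ℤ) q.1 q.2.1 q.2.2)).image (fun q => {q.1, q.2.1, q.2.2})
  have memL : ∀ (i : ℕ) (F : Multiset (Fin n)), F ∈ L i ↔ ∃ a b c, H (i : ℤ) a b c ∧
      F = {a, b, c} := by
    intro i F
    constructor
    · intro hF
      obtain ⟨⟨a, b, c⟩, hq, hF2⟩ := Finset.mem_image.mp hF
      exact ⟨a, b, c, (Finset.mem_filter.mp hq).2, hF2.symm⟩
    · rintro ⟨a, b, c, hq, hF2⟩
      exact Finset.mem_image.mpr ⟨(a, b, c), Finset.mem_filter.mpr ⟨Finset.mem_univ _, hq⟩,
        hF2.symm⟩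
  have hperm : ∀ (t : ℤ) {a b c a' b' c' : Fin n}, ({a, b, c} : Multiset (Fin n)) = {a', b', c'} →
      H t a b c → H t a' b' c' := fun t {a b c a' b' c'} h hH =>
    red_perm (H t) (fun x y z => symL t _ _ _) (fun x y z => symR t _ _ _) h hH
  have hfull : ∀ i : ℕ, i ≤ K → ∃ a b c, H (i : ℤ) a b c := by
    intro i hi
    obtain ⟨x, y, z, h⟩ := full i (by positivity) (by exact_mod_cast hi)
    refine ⟨e x, e y, e z, ?_⟩
    show G i (e.symm (e x)) (e.symm (e y)) (e.symm (e z))
    rwa [e.symm_apply_apply, e.symm_apply_apply, e.symm_apply_apply]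
  have hdisj : ∀ (i j : ℕ) (F : Multiset (Fin n)), F ∈ L i → F ∈ L j → i = j := by
    intro i j F hi hj
    obtain ⟨a, b, c, h1, h2⟩ := (memL i F).mp hi
    obtain ⟨a', b', c', h3, h4⟩ := (memL j F).mp hj
    have h5 := hperm i (h2.symm.trans h4) h1
    exact_mod_cast uniq _ _ _ _ _ h5 h3
  have h := hConj n 3 K L ?_ ?_ ?_ ?_
  · omega
  · intro i hi
    obtain ⟨a, b, c, h⟩ := hfull i hi
    exact ⟨_, (memL i _).mpr ⟨a, b, c, h, rfl⟩⟩
  · intro i _ F hF
    obtain ⟨a, b, c, _, rfl⟩ := (memL i F).mp hF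
    rfl
  · intro i j _ _ hij
    rw [Finset.disjoint_left]
    intro F h1 h2
    exact hij (hdisj i j F h1 h2)
  · intro S i j l hil hlj hjk hSi hSj
    obtain ⟨F, hF, hSF⟩ := hSi
    obtain ⟨F', hF', hSF'⟩ := hSj
    obtain ⟨T, hT⟩ := Multiset.le_iff_exists_add.mp hSF
    obtain ⟨T', hT'⟩ := Multiset.le_iff_exists_add.mp hSF'
    obtain ⟨a, b, c, hH, hFe⟩ := (memL i F).mp hF
    obtain ⟨a', b', c', hH', hFe'⟩ := (memL j F').mp hF'
    have hcF : Multiset.card F = 3 := by rw [hFe]; rfl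
    have hcF' : Multiset.card F' = 3 := by rw [hFe']; rfl
    have hc : Multiset.card S + Multiset.card T = 3 := by
      rw [← Multiset.card_add, ← hT, hcF]
    have hc' : Multiset.card S + Multiset.card T' = 3 := by
      rw [← Multiset.card_add, ← hT', hcF']
    have hS3 : Multiset.card S ≤ 3 := by omega
    have hil' : (i : ℤ) ≤ l := by exact_mod_cast hil
    have hlj' : (l : ℤ) ≤ j := by exact_mod_cast hlj
    interval_cases hS : Multiset.card S
    · -- empty
      rw [Multiset.card_eq_zero] at hS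
      obtain ⟨x, y, z, h⟩ := hfull l (hlj.trans hjk)
      exact ⟨_, (memL l _).mpr ⟨x, y, z, h, rfl⟩, by rw [hS]; exact Multiset.zero_le _⟩
    · -- a vertex
      obtain ⟨x, hx⟩ := Multiset.card_eq_one.mp hS
      have hT2 : Multiset.card T = 2 := by omega
      have hT2' : Multiset.card T' = 2 := by omega
      obtain ⟨y, z, hyz⟩ := Multiset.card_eq_two.mp hT2
      obtain ⟨y', z', hyz'⟩ := Multiset.card_eq_two.mp hT2'
      have h1 : H i x y z := hperm i (by rw [← hFe, hT, hx, hyz]; rfl) hH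
      have h2 : H j x y' z' := hperm j (by rw [← hFe', hT', hx, hyz']; rfl) hH'
      obtain ⟨u, v, huv⟩ := (vert (e.symm x)).out ⟨_, _, h1⟩ ⟨_, _, h2⟩ ⟨hil', hlj'⟩
      refine ⟨{x, e u, e v}, (memL l _).mpr ⟨x, e u, e v, ?_, rfl⟩, ?_⟩
      · show G l (e.symm x) (e.symm (e u)) (e.symm (e v))
        rwa [e.symm_apply_apply, e.symm_apply_apply]
      · rw [hx, Multiset.singleton_le]
        exact Multiset.mem_cons_self _ _
    · -- a pair
      obtain ⟨x, y, hxy⟩ := Multiset.card_eq_two.mp hS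
      have hT2 : Multiset.card T = 1 := by omega
      have hT2' : Multiset.card T' = 1 := by omega
      obtain ⟨z, hz⟩ := Multiset.card_eq_one.mp hT2
      obtain ⟨z', hz'⟩ := Multiset.card_eq_one.mp hT2'
      have h1 : H i x y z := hperm i (by rw [← hFe, hT, hxy, hz]; rfl) hH
      have h2 : H j x y z' := hperm j (by rw [← hFe', hT', hxy, hz']; rfl) hH'
      obtain ⟨v, hv⟩ := (pair (e.symm x) (e.symm y)).out ⟨_, h1⟩ ⟨_, h2⟩ ⟨hil', hlj'⟩
      refine ⟨{x, y, e v}, (memL l _).mpr ⟨x, y, e v, ?_, rfl⟩, ?_⟩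
      · show G l (e.symm x) (e.symm y) (e.symm (e v))
        rwa [e.symm_apply_apply]
      · rw [hxy]
        exact Multiset.le_iff_exists_add.mpr ⟨{e v}, rfl⟩
    · -- a facet
      have hT2 : T = 0 := Multiset.card_eq_zero.mp (by omega)
      have hT2' : T' = 0 := Multiset.card_eq_zero.mp (by omega)
      rw [hT2, add_zero] at hT
      rw [hT2', add_zero] at hT'
      have hij : i = j := hdisj i j S (hT ▸ hF) (hT' ▸ hF')
      have hl : l = i := by omega
      rw [hl]
      exact ⟨F, hF, hSF⟩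

end Pool.Agent.HAE
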