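import Mathlib
import Pool.Agent.Lib.MP_51ebd4_co.HAE.Defs
import Pool.Agent.Lib.MP_51ebd4_co.HAE.Reduction

set_option autoImplicit false

namespace Pool.Agent.HAE

/-- total length of the phases before phase `k` -/
def chainO {V : Type} (Φ : ℕ → Phase V) (k : ℕ) : ℕ := ∑ i ∈ Finset.range k, (Φ i).len

theorem chainO_succ {V : Type} (Φ : ℕ → Phase V) (k : ℕ) :
    chainO Φ (k + 1) = chainO Φ k + (Φ k).len := Finset.sum_range_succ _ _

theorem chain_vert {V : Type} (M : ℕ) (Φ : ℕ → Phase V)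
    (hU : ∀ x, Set.OrdConnected {k : ℕ | k < M ∧ x ∈ (Φ k).U}) (x : V) (k1 : ℕ) (hk1 : k1 < M)
    (t1 : ℤ) (h1 : ∃ y z, (Φ k1).R (t1 - chainO Φ k1) x y z) (j : ℕ) :
    ∀ (t2 : ℤ), k1 + j < M → (∃ y z, (Φ (k1 + j)).R (t2 - chainO Φ (k1 + j)) x y z) →
      ∀ t ∈ Set.uIcc t1 t2, ∃ k, k < M ∧ ∃ y z, (Φ k).R (t - chainO Φ k) x y z := by
  have hsingle : ∀ (k : ℕ) (a b : ℤ), (∃ y z, (Φ k).R (a - chainO Φ k) x y z) →
      (∃ y z, (Φ k).R (b - chainO Φ k) x y z) → ∀ t ∈ Set.uIcc a b,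
      ∃ y z, (Φ k).R (t - chainO Φ k) x y z := by
    intro k a b ha hb t ht
    have h := ((Φ k).vert x).uIcc_subset ha hb
    apply h
    rw [Set.mem_uIcc] at ht ⊢
    rcases ht with ⟨h3, h4⟩ | ⟨h3, h4⟩
    · left; constructor <;> omega
    · right; constructor <;> omega
  have hxU : ∀ (k : ℕ) (s : ℤ), (∃ y z, (Φ k).R s x y z) → x ∈ (Φ k).U := by
    rintro k s ⟨y, z, h⟩
    exact (Φ k).supp _ _ _ _ h
  induction j with
  | zero =>
    intro t2 hj h2 t ht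
    exact ⟨k1, hk1, hsingle k1 t1 t2 h1 h2 t ht⟩
  | succ j ih =>
    intro t2 hj h2 t ht
    have hj' : k1 + j < M := by omega
    have hx2 : x ∈ (Φ (k1 + (j + 1))).U := hxU _ _ h2
    have hx1 : x ∈ (Φ k1).U := hxU _ _ h1
    have hx3 : x ∈ (Φ (k1 + j)).U := by
      have h := (hU x).out (x := k1) ⟨hk1, hx1⟩ (y := k1 + (j + 1)) ⟨hj, hx2⟩
      exact (h (Set.mem_Icc.2 ⟨by omega, by omega⟩) : k1 + j ∈ _).2
    have hO : chainO Φ (k1 + (j + 1)) = chainO Φ (k1 + j) + (Φ (k1 + j)).len :=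
      chainO_succ Φ (k1 + j)
    have hm1 : ∃ y z, (Φ (k1 + j)).R
        (((chainO Φ (k1 + (j + 1)) : ℕ) : ℤ) - chainO Φ (k1 + j)) x y z := by
      rw [hO]
      push_cast
      rw [add_sub_cancel_left]
      exact (Φ (k1 + j)).atLen x hx3
    have hm2 : ∃ y z, (Φ (k1 + (j + 1))).R
        (((chainO Φ (k1 + (j + 1)) : ℕ) : ℤ) - chainO Φ (k1 + (j + 1))) x y z := by
      rw [sub_self]
      exact (Φ (k1 + (j + 1))).at0 x hx2
    rcases Set.uIcc_subset_uIcc_union_uIcc (b := ((chainO Φ (k1 + (j + 1)) : ℕ) : ℤ)) ht with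
      h | h
    · exact ih _ hj' hm1 t h
    · exact ⟨_, hj, hsingle _ _ _ hm2 h2 t h⟩

theorem chain_exists (O : ℕ → ℕ) (hO : O 0 = 0) (M : ℕ) (hM : 0 < M) (t : ℤ) (h0 : 0 ≤ t)
    (h1 : t ≤ O M) : ∃ k, k < M ∧ (O k : ℤ) ≤ t ∧ t ≤ O (k + 1) := by
  induction M with
  | zero => omega
  | succ M ih =>
    by_cases h : (O M : ℤ) ≤ t
    · exact ⟨M, by omega, h, h1⟩
    · rcases Nat.eq_zero_or_pos M with h2 | h2
      · subst h2
        rw [hO] at h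
        omega
      · obtain ⟨k, h3, h4⟩ := ih h2 (by omega)
        exact ⟨k, by omega, h4⟩

/-- Concatenation of phases: phase `k` is shifted in time by the sum of the lengths of the
previous phases. -/
theorem chain {V : Type} [Fintype V] (M : ℕ) (Φ : ℕ → Phase V) (lab : V → V → ℕ)
    (hlab : ∀ k, k < M → ∀ t x y z, (Φ k).R t x y z → lab x y = k)
    (hU : ∀ x, Set.OrdConnected {k : ℕ | k < M ∧ x ∈ (Φ k).U})
    (hM : 0 < M)
    (hK : 3 * (Fintype.card V - 1) < ∑ k ∈ Finset.range M, (Φ k).len) : ¬ Conj := by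
  refine reduction (fun t x y z => ∃ k, k < M ∧ (Φ k).R (t - chainO Φ k) x y z)
    (∑ k ∈ Finset.range M, (Φ k).len) ?_ ?_ ?_ ?_ ?_ ?_ ?_ hK
  · rintro t x y z ⟨k, hk, h⟩
    exact ⟨k, hk, (Φ k).symL _ _ _ _ h⟩
  · rintro t x y z ⟨k, hk, h⟩
    exact ⟨k, hk, (Φ k).symR _ _ _ _ h⟩
  · rintro t x y z ⟨k, hk, h⟩
    exact (Φ k).ne _ _ _ _ h
  · rintro t t' x y z ⟨k, hk, h⟩ ⟨k', hk', h'⟩
    have e1 := hlab k hk _ _ _ _ h
    have e2 := hlab k' hk' _ _ _ _ h'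
    have e3 : k = k' := e1.symm.trans e2
    subst e3
    have := (Φ k).uniq _ _ _ _ _ h h'
    omega
  · intro x y
    refine ⟨?_⟩
    rintro t1 ⟨z1, k1, hk1, h1⟩ t2 ⟨z2, k2, hk2, h2⟩ t ht
    have e1 := hlab k1 hk1 _ _ _ _ h1
    have e2 := hlab k2 hk2 _ _ _ _ h2
    have e3 : k1 = k2 := e1.symm.trans e2
    subst e3
    have h := ((Φ k1).pair x y).out ⟨z1, h1⟩ ⟨z2, h2⟩
    have h3 : t - chainO Φ k1 ∈ Set.Icc (t1 - (chainO Φ k1 : ℤ)) (t2 - (chainO Φ k1 : ℤ)) := by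
      rw [Set.mem_Icc] at ht ⊢
      constructor <;> omega
    obtain ⟨z, hz⟩ := h h3
    exact ⟨z, k1, hk1, hz⟩
  · intro x
    refine ⟨?_⟩
    rintro t1 ⟨y1, z1, k1, hk1, h1⟩ t2 ⟨y2, z2, k2, hk2, h2⟩ t ht
    have key : ∃ k, k < M ∧ ∃ y z, (Φ k).R (t - chainO Φ k) x y z := by
      rcases le_total k1 k2 with h | h
      · obtain ⟨j, rfl⟩ := Nat.exists_eq_add_of_le h
        refine chain_vert M Φ hU x k1 hk1 t1 ⟨y1, z1, h1⟩ j t2 hk2 ⟨y2, z2, h2⟩ t ?_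
        exact Set.Icc_subset_uIcc ht
      · obtain ⟨j, rfl⟩ := Nat.exists_eq_add_of_le h
        refine chain_vert M Φ hU x k2 hk2 t2 ⟨y2, z2, h2⟩ j t1 hk1 ⟨y1, z1, h1⟩ t ?_
        rw [Set.uIcc_comm]
        exact Set.Icc_subset_uIcc ht
    obtain ⟨k, hk, y, z, h⟩ := key
    exact ⟨y, z, k, hk, h⟩
  · intro t h0 h1
    obtain ⟨k, hk, h2, h3⟩ := chain_exists (chainO Φ) (by simp [chainO]) M hM t h0 h1
    obtain ⟨x, hx⟩ := (Φ k).nonemp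
    have h4 := ((Φ k).vert x).out ((Φ k).at0 x hx) ((Φ k).atLen x hx)
    have h5 : t - chainO Φ k ∈ Set.Icc (0 : ℤ) ((Φ k).len : ℤ) := by
      have := chainO_succ Φ k
      rw [Set.mem_Icc]
      constructor <;> omega
    obtain ⟨y, z, h6⟩ := h4 h5
    exact ⟨x, y, z, k, hk, h6⟩

end Pool.Agent.HAE
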