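import Mathlib
import Pool.Agent.Lib.MP_51ebd4_co.HAE.Defs

set_option autoImplicit false

namespace Pool.Agent.HAE

/-- Which pairs may occur in the hub/flow phase: flow (left) and hub (right), or two hubs
on a common line of slope `s`. -/
def HFPair {CF CH : Type} {Q : ℕ} (tt : CH → ZMod Q) (s : ZMod Q) :
    (CF × ZMod Q) ⊕ (CH × ZMod Q) → (CF × ZMod Q) ⊕ (CH × ZMod Q) → Prop
  | Sum.inl _, Sum.inl _ => False
  | Sum.inl _, Sum.inr _ => True
  | Sum.inr _, Sum.inl _ => True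
  | Sum.inr a, Sum.inr b => a.1 ≠ b.1 ∧ b.2 - a.2 = s * (tt b.1 - tt a.1)

/-- the time at which the flow vertex `f` meets the hubs `x`, `y` -/
private def hfCore {CF CH : Type} (cF : Cell CF) (cH : Cell CH) {Q : ℕ} (tt : CH → ZMod Q)
    (s : ZMod Q) (δ : ℕ) (t : ℤ) (f : CF × ZMod Q) (x y : CH × ZMod Q) : Prop :=
  x.1 ≠ y.1 ∧ y.2 - x.2 = s * (tt y.1 - tt x.1) ∧
    t = (((x.2 - s * tt x.1) - f.2).val : ℤ) * ((cF.p : ℤ) * cF.N) + cF.T1 f.1 +
      cH.T2 x.1 y.1 - δ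

/-- the relation of the phase -/
private def hfR {CF CH : Type} (cF : Cell CF) (cH : Cell CH) {Q : ℕ} (tt : CH → ZMod Q)
    (s : ZMod Q) (δ : ℕ) (t : ℤ) :
    (CF × ZMod Q) ⊕ (CH × ZMod Q) → (CF × ZMod Q) ⊕ (CH × ZMod Q) →
      (CF × ZMod Q) ⊕ (CH × ZMod Q) → Prop
  | Sum.inl f, Sum.inr x, Sum.inr y => hfCore cF cH tt s δ t f x y
  | Sum.inr x, Sum.inl f, Sum.inr y => hfCore cF cH tt s δ t f x y
  | Sum.inr x, Sum.inr y, Sum.inl f => hfCore cF cH tt s δ t f x y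
  | Sum.inl _, Sum.inl _, _ => False
  | Sum.inl _, Sum.inr _, Sum.inl _ => False
  | Sum.inr _, Sum.inl _, Sum.inl _ => False
  | Sum.inr _, Sum.inr _, Sum.inr _ => False

section

variable {CF CH : Type} (cF : Cell CF) (cH : Cell CH) {Q : ℕ} (tt : CH → ZMod Q)
    (s : ZMod Q) (δ : ℕ)

private theorem hfCore_symm {t : ℤ} {f : CF × ZMod Q} {x y : CH × ZMod Q}
    (h : hfCore cF cH tt s δ t f x y) : hfCore cF cH tt s δ t f y x := by
  obtain ⟨h1, h2, h3⟩ := h
  refine ⟨h1.symm, ?_, ?_⟩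
  · linear_combination -h2
  · have h4 : y.2 - s * tt y.1 = x.2 - s * tt x.1 := by linear_combination h2
    rw [h4, cH.T2_symm y.1 x.1]
    exact h3

private theorem hf_rep [Fact Q.Prime] (b : ZMod Q) (u : ℤ) (h0 : 0 ≤ u)
    (h1 : u < (Q : ℤ) * ((cF.p : ℤ) * cF.N)) :
    ∃ f : CF × ZMod Q, ((b - f.2).val : ℤ) * ((cF.p : ℤ) * cF.N) + cF.T1 f.1 = u := by
  have hP : (0 : ℤ) < (cF.p : ℤ) * cF.N :=
    mul_pos (by exact_mod_cast cF.hp) (by exact_mod_cast cF.hN)
  set P : ℤ := (cF.p : ℤ) * cF.N with hPdef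
  have hm0 : 0 ≤ u % P := Int.emod_nonneg _ hP.ne'
  have hm1 : u % P < P := Int.emod_lt_of_pos _ hP
  have hd0 : 0 ≤ u / P := Int.ediv_nonneg h0 hP.le
  have hd1 : u / P < Q := Int.ediv_lt_of_lt_mul hP h1
  obtain ⟨a, ha⟩ := cF.T1_surj (u % P) hm0 hm1
  obtain ⟨d, hd⟩ := Int.eq_ofNat_of_zero_le hd0
  have hdQ : d < Q := by
    rw [hd] at hd1
    exact_mod_cast hd1
  refine ⟨(a, b - (d : ZMod Q)), ?_⟩
  have h2 : (b - (b - (d : ZMod Q))).val = d := by
    rw [sub_sub_cancel, ZMod.val_natCast_of_lt hdQ]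
  show ((b - (b - (d : ZMod Q))).val : ℤ) * P + cF.T1 a = u
  rw [h2, ha]
  have h3 := Int.emod_add_mul_ediv u P
  rw [hd] at h3
  have h4 : ((d : ℕ) : ℤ) * P = P * ((d : ℕ) : ℤ) := mul_comm _ _
  linarith

private theorem hf_bound [Fact Q.Prime] (b : ZMod Q) (f : CF × ZMod Q) :
    0 ≤ ((b - f.2).val : ℤ) * ((cF.p : ℤ) * cF.N) + cF.T1 f.1 ∧
      ((b - f.2).val : ℤ) * ((cF.p : ℤ) * cF.N) + cF.T1 f.1 < (Q : ℤ) * ((cF.p : ℤ) * cF.N) := by
  have hP : (0 : ℤ) < (cF.p : ℤ) * cF.N :=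
    mul_pos (by exact_mod_cast cF.hp) (by exact_mod_cast cF.hN)
  have hT := cF.T1_mem f.1
  have hv : (b - f.2).val < Q := ZMod.val_lt _
  have hv0 : (0 : ℤ) ≤ ((b - f.2).val : ℤ) := Int.natCast_nonneg _
  have hv1 : ((b - f.2).val : ℤ) + 1 ≤ Q := by exact_mod_cast hv
  constructor
  · have := mul_nonneg hv0 hP.le
    linarith [hT.1]
  · have := mul_le_mul_of_nonneg_right hv1 hP.le
    linarith [hT.2]

private theorem hf_vertF [Fact Q.Prime] [Nonempty CH] (hp : cF.p = cH.p)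
    (hN : cF.N = 2 * cH.N - 1) (f : CF × ZMod Q) (t : ℤ) :
    (∃ y z, hfR cF cH tt s δ t (Sum.inl f) y z) ↔
      cF.T1 f.1 - δ ≤ t ∧ t < cF.T1 f.1 - δ + (Q : ℤ) * ((cF.p : ℤ) * cF.N) := by
  have hP : (0 : ℤ) < (cF.p : ℤ) * cF.N :=
    mul_pos (by exact_mod_cast cF.hp) (by exact_mod_cast cF.hN)
  have hNH := cH.hN
  have hNZ : (cF.N : ℤ) = 2 * cH.N - 1 := by
    rw [hN]
    push_cast [Nat.cast_sub (show 1 ≤ 2 * cH.N by omega)]
    ring
  have hPeq : (cF.p : ℤ) * cF.N = (cH.p : ℤ) * (2 * cH.N - 1) := by rw [hp, hNZ]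
  constructor
  · rintro ⟨y, z, H⟩
    rcases y with y | x <;> rcases z with z | y
    · exact H.elim
    · exact H.elim
    · exact H.elim
    · obtain ⟨h1, h2, h3⟩ : hfCore cF cH tt s δ t f x y := H
      have hv : ((x.2 - s * tt x.1) - f.2).val < Q := ZMod.val_lt _
      have hv0 : (0 : ℤ) ≤ (((x.2 - s * tt x.1) - f.2).val : ℤ) := Int.natCast_nonneg _
      have hv1 : (((x.2 - s * tt x.1) - f.2).val : ℤ) + 1 ≤ Q := by exact_mod_cast hv
      have h4 := cH.T2_mem x.1 y.1 h1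
      have h5 := cH.st_mem x.1
      have h6 := mul_nonneg hv0 hP.le
      have h7 := mul_le_mul_of_nonneg_right hv1 hP.le
      constructor
      · linarith [h4.1, h5.1]
      · have h8 : (cH.p : ℤ) * (cH.N - 1) + (cH.p : ℤ) * cH.N = (cF.p : ℤ) * cF.N := by
          rw [hPeq]; ring
        linarith [h4.2, h5.2]
  · rintro ⟨h1, h2⟩
    set P : ℤ := (cF.p : ℤ) * cF.N with hPdef
    have h0 : 0 ≤ t - cF.T1 f.1 + δ := by linarith
    have hm0 : 0 ≤ (t - cF.T1 f.1 + δ) % P := Int.emod_nonneg _ hP.ne'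
    have hm1 : (t - cF.T1 f.1 + δ) % P < P := Int.emod_lt_of_pos _ hP
    have hd0 : 0 ≤ (t - cF.T1 f.1 + δ) / P := Int.ediv_nonneg h0 hP.le
    have hd1 : (t - cF.T1 f.1 + δ) / P < Q := Int.ediv_lt_of_lt_mul hP (by linarith)
    obtain ⟨d, hd⟩ := Int.eq_ofNat_of_zero_le hd0
    have hdQ : d < Q := by
      rw [hd] at hd1
      exact_mod_cast hd1
    obtain ⟨k0⟩ := ‹Nonempty CH›
    obtain ⟨k, _, hk1, hk2⟩ := cH.st_surj k0 _ hm0 (by rw [← hPeq]; exact hm1)
    obtain ⟨k', hk', hk3⟩ := cH.T2_surj k _ hk1 hk2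
    refine ⟨Sum.inr (k, s * tt k + (f.2 + d)), Sum.inr (k', s * tt k' + (f.2 + d)), ?_⟩
    show hfCore cF cH tt s δ t f (k, s * tt k + (f.2 + d)) (k', s * tt k' + (f.2 + d))
    refine ⟨Ne.symm hk', by ring, ?_⟩
    have h3 : (((s * tt k + (f.2 + d)) - s * tt k) - f.2).val = d := by
      rw [show ((s * tt k + (f.2 + d)) - s * tt k) - f.2 = (d : ZMod Q) by ring,
        ZMod.val_natCast_of_lt hdQ]
    show t = ((((s * tt k + (f.2 + d)) - s * tt k) - f.2).val : ℤ) * P + cF.T1 f.1 +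
      cH.T2 k k' - δ
    rw [h3, hk3]
    have h4 := Int.emod_add_mul_ediv (t - cF.T1 f.1 + δ) P
    rw [hd] at h4
    have h5 : ((d : ℕ) : ℤ) * P = P * ((d : ℕ) : ℤ) := mul_comm _ _
    linarith

private theorem hf_vertH [Fact Q.Prime] (x : CH × ZMod Q) (t : ℤ) :
    (∃ y z, hfR cF cH tt s δ t (Sum.inr x) y z) ↔
      cH.st x.1 - δ ≤ t ∧ t < cH.st x.1 - δ + (Q : ℤ) * ((cF.p : ℤ) * cF.N) +
        ((cH.p : ℤ) * cH.N - 1) := by
  have hP : (0 : ℤ) < (cH.p : ℤ) * cH.N :=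
    mul_pos (by exact_mod_cast cH.hp) (by exact_mod_cast cH.hN)
  have key : (∃ y z, hfR cF cH tt s δ t (Sum.inr x) y z) ↔
      ∃ f y, hfCore cF cH tt s δ t f x y := by
    constructor
    · rintro ⟨y, z, H⟩
      rcases y with f | y <;> rcases z with z | z
      · exact H.elim
      · exact ⟨f, z, H⟩
      · exact ⟨z, y, H⟩
      · exact H.elim
    · rintro ⟨f, y, H⟩
      exact ⟨Sum.inl f, Sum.inr y, H⟩
  rw [key]
  constructor
  · rintro ⟨f, y, h1, h2, h3⟩
    have h4 := cH.T2_mem x.1 y.1 h1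
    have h5 := hf_bound cF (x.2 - s * tt x.1) f
    constructor
    · linarith [h4.1, h5.1]
    · linarith [h4.2, h5.2]
  · rintro ⟨h1, h2⟩
    -- choose the label of the pair of hubs
    obtain ⟨m, hm1, hm2, hm3, hm4⟩ : ∃ m : ℤ, cH.st x.1 ≤ m ∧
        m < cH.st x.1 + (cH.p : ℤ) * cH.N ∧ 0 ≤ t + δ - m ∧
        t + δ - m < (Q : ℤ) * ((cF.p : ℤ) * cF.N) := by
      by_cases h : t + δ - cH.st x.1 < (Q : ℤ) * ((cF.p : ℤ) * cF.N)
      · exact ⟨cH.st x.1, le_rfl, by linarith, by linarith, h⟩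
      · have hQP : (0 : ℤ) < (Q : ℤ) * ((cF.p : ℤ) * cF.N) := by
          refine mul_pos ?_ (mul_pos (by exact_mod_cast cF.hp) (by exact_mod_cast cF.hN))
          exact_mod_cast (Fact.out : Q.Prime).pos
        push Not at h
        refine ⟨t + δ - ((Q : ℤ) * ((cF.p : ℤ) * cF.N) - 1), by linarith, ?_, by linarith, by linarith⟩
        linarith
    obtain ⟨k', hk', hk⟩ := cH.T2_surj x.1 m hm1 hm2
    obtain ⟨f, hf⟩ := hf_rep cF (x.2 - s * tt x.1) _ hm3 hm4
    refine ⟨f, (k', x.2 + s * (tt k' - tt x.1)), Ne.symm hk', by ring, ?_⟩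
    show t = (((x.2 - s * tt x.1) - f.2).val : ℤ) * ((cF.p : ℤ) * cF.N) + cF.T1 f.1 +
      cH.T2 x.1 k' - δ
    rw [hf, hk]
    ring

private theorem hf_pairFH (f : CF × ZMod Q) (x : CH × ZMod Q) :
    Set.OrdConnected {t : ℤ | ∃ y, hfCore cF cH tt s δ t f x y} := by
  have h : {t : ℤ | ∃ y, hfCore cF cH tt s δ t f x y} =
      Set.Ico ((((x.2 - s * tt x.1) - f.2).val : ℤ) * ((cF.p : ℤ) * cF.N) + cF.T1 f.1 - δ +
        cH.st x.1)
      ((((x.2 - s * tt x.1) - f.2).val : ℤ) * ((cF.p : ℤ) * cF.N) + cF.T1 f.1 - δ +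
        cH.st x.1 + (cH.p : ℤ) * cH.N) := by
    ext t
    rw [Set.mem_setOf_eq, Set.mem_Ico]
    constructor
    · rintro ⟨y, h1, h2, h3⟩
      have h4 := cH.T2_mem x.1 y.1 h1
      constructor
      · linarith [h4.1]
      · linarith [h4.2]
    · rintro ⟨h1, h2⟩
      obtain ⟨k', hk', hk⟩ := cH.T2_surj x.1
        (t - ((((x.2 - s * tt x.1) - f.2).val : ℤ) * ((cF.p : ℤ) * cF.N) + cF.T1 f.1 - δ))
        (by linarith) (by linarith)
      refine ⟨(k', x.2 + s * (tt k' - tt x.1)), Ne.symm hk', by ring, ?_⟩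
      show t = (((x.2 - s * tt x.1) - f.2).val : ℤ) * ((cF.p : ℤ) * cF.N) + cF.T1 f.1 +
        cH.T2 x.1 k' - δ
      rw [hk]
      ring
  rw [h]
  exact Set.ordConnected_Ico

private theorem hf_pairHH [Fact Q.Prime] (x y : CH × ZMod Q) :
    Set.OrdConnected {t : ℤ | ∃ f, hfCore cF cH tt s δ t f x y} := by
  by_cases hxy : x.1 ≠ y.1 ∧ y.2 - x.2 = s * (tt y.1 - tt x.1)
  · have h : {t : ℤ | ∃ f, hfCore cF cH tt s δ t f x y} =
        Set.Ico (cH.T2 x.1 y.1 - δ) (cH.T2 x.1 y.1 - δ + (Q : ℤ) * ((cF.p : ℤ) * cF.N)) := by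
      ext t
      rw [Set.mem_setOf_eq, Set.mem_Ico]
      constructor
      · rintro ⟨f, h1, h2, h3⟩
        have h5 := hf_bound cF (x.2 - s * tt x.1) f
        constructor
        · linarith [h5.1]
        · linarith [h5.2]
      · rintro ⟨h1, h2⟩
        obtain ⟨f, hf⟩ := hf_rep cF (x.2 - s * tt x.1) (t - (cH.T2 x.1 y.1 - δ))
          (by linarith) (by linarith)
        refine ⟨f, hxy.1, hxy.2, ?_⟩
        rw [hf]
        ring
    rw [h]
    exact Set.ordConnected_Ico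
  · have h : {t : ℤ | ∃ f, hfCore cF cH tt s δ t f x y} = ∅ := by
      ext t
      rw [Set.mem_setOf_eq]
      constructor
      · rintro ⟨f, h1, h2, h3⟩
        exact (hxy ⟨h1, h2⟩).elim
      · intro h
        exact h.elim
    rw [h]
    exact Set.ordConnected_empty

end

/-- The phase in which the flow group `CF × F_Q` passes over the hub cliques of `CH × F_Q`. -/
theorem exists_hf {CF CH : Type} [Nonempty CF] [Nonempty CH] (cF : Cell CF) (cH : Cell CH)
    (hp : cF.p = cH.p) (hN : cF.N = 2 * cH.N - 1)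
    (Q : ℕ) [Fact Q.Prime] (tt : CH → ZMod Q) (s : ZMod Q) (δ : ℕ)
    (hδ : cF.p * cF.N ≤ δ) (hlen : δ + 1 ≤ Q * (cF.p * cF.N)) :
    ∃ Φ : Phase ((CF × ZMod Q) ⊕ (CH × ZMod Q)), Φ.U = Set.univ ∧
      Φ.len = Q * (cF.p * cF.N) - 1 - δ ∧
      ∀ t x y z, Φ.R t x y z → HFPair tt s x y := by
  have hδ' : (cF.p : ℤ) * cF.N ≤ δ := by exact_mod_cast hδ
  have hlen' : (δ : ℤ) + 1 ≤ (Q : ℤ) * ((cF.p : ℤ) * cF.N) := by exact_mod_cast hlen
  have hlenZ : ((Q * (cF.p * cF.N) - 1 - δ : ℕ) : ℤ) =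
      (Q : ℤ) * ((cF.p : ℤ) * cF.N) - 1 - δ := by
    rw [Nat.cast_sub (by omega), Nat.cast_sub (by omega)]
    push_cast
    ring
  have hPH : (0 : ℤ) < (cH.p : ℤ) * cH.N :=
    mul_pos (by exact_mod_cast cH.hp) (by exact_mod_cast cH.hN)
  have hpH : (0 : ℤ) < (cH.p : ℤ) := by exact_mod_cast cH.hp
  have hNH := cH.hN
  have hNZ : (cF.N : ℤ) = 2 * cH.N - 1 := by
    rw [hN]
    push_cast [Nat.cast_sub (show 1 ≤ 2 * cH.N by omega)]
    ring
  have hPeq : (cF.p : ℤ) * cF.N = (cH.p : ℤ) * (cH.N - 1) + (cH.p : ℤ) * cH.N := by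
    rw [hp, hNZ]; ring
  refine ⟨{ R := hfR cF cH tt s δ
            U := Set.univ
            len := Q * (cF.p * cF.N) - 1 - δ
            symL := ?_
            symR := ?_
            ne := ?_
            uniq := ?_
            supp := fun _ _ _ _ _ => Set.mem_univ _
            pair := ?_
            vert := ?_
            at0 := ?_
            atLen := ?_
            nonemp := ?_ }, rfl, rfl, ?_⟩
  · rintro t (x | x) (y | y) (z | z) H
    · exact H.elim
    · exact H.elim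
    · exact H.elim
    · exact H
    · exact H.elim
    · exact H
    · exact hfCore_symm cF cH tt s δ H
    · exact H.elim
  · rintro t (x | x) (y | y) (z | z) H
    · exact H.elim
    · exact H.elim
    · exact H.elim
    · exact hfCore_symm cF cH tt s δ H
    · exact H.elim
    · exact H
    · exact H
    · exact H.elim
  · rintro t (x | x) (y | y) (z | z) H
    · exact H.elim
    · exact H.elim
    · exact H.elim
    · exact Sum.inl_ne_inr
    · exact H.elim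
    · exact Sum.inr_ne_inl
    · intro h
      rw [Sum.inr.injEq] at h
      exact H.1 (by rw [h])
    · exact H.elim
  · rintro t t' (x | x) (y | y) (z | z) H H'
    · exact H.elim
    · exact H.elim
    · exact H.elim
    · exact H.2.2.trans H'.2.2.symm
    · exact H.elim
    · exact H.2.2.trans H'.2.2.symm
    · exact H.2.2.trans H'.2.2.symm
    · exact H.elim
  · rintro (x | x) (y | y)
    · have h : {t : ℤ | ∃ z, hfR cF cH tt s δ t (Sum.inl x) (Sum.inl y) z} = ∅ := by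
        ext t
        rw [Set.mem_setOf_eq]
        constructor
        · rintro ⟨z | z, H⟩ <;> exact H.elim
        · intro h
          exact h.elim
      rw [h]
      exact Set.ordConnected_empty
    · have h : {t : ℤ | ∃ z, hfR cF cH tt s δ t (Sum.inl x) (Sum.inr y) z} =
          {t : ℤ | ∃ z, hfCore cF cH tt s δ t x y z} := by
        ext t
        rw [Set.mem_setOf_eq, Set.mem_setOf_eq]
        constructor
        · rintro ⟨z | z, H⟩
          · exact H.elim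
          · exact ⟨z, H⟩
        · rintro ⟨z, H⟩
          exact ⟨Sum.inr z, H⟩
      rw [h]
      exact hf_pairFH cF cH tt s δ x y
    · have h : {t : ℤ | ∃ z, hfR cF cH tt s δ t (Sum.inr x) (Sum.inl y) z} =
          {t : ℤ | ∃ z, hfCore cF cH tt s δ t y x z} := by
        ext t
        rw [Set.mem_setOf_eq, Set.mem_setOf_eq]
        constructor
        · rintro ⟨z | z, H⟩
          · exact H.elim
          · exact ⟨z, H⟩
        · rintro ⟨z, H⟩
          exact ⟨Sum.inr z, H⟩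
      rw [h]
      exact hf_pairFH cF cH tt s δ y x
    · have h : {t : ℤ | ∃ z, hfR cF cH tt s δ t (Sum.inr x) (Sum.inr y) z} =
          {t : ℤ | ∃ f, hfCore cF cH tt s δ t f x y} := by
        ext t
        rw [Set.mem_setOf_eq, Set.mem_setOf_eq]
        constructor
        · rintro ⟨z | z, H⟩
          · exact ⟨z, H⟩
          · exact H.elim
        · rintro ⟨z, H⟩
          exact ⟨Sum.inl z, H⟩
      rw [h]
      exact hf_pairHH cF cH tt s δ x y
  · rintro (x | x)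
    · have h : {t : ℤ | ∃ y z, hfR cF cH tt s δ t (Sum.inl x) y z} =
          Set.Ico (cF.T1 x.1 - δ) (cF.T1 x.1 - δ + (Q : ℤ) * ((cF.p : ℤ) * cF.N)) := by
        ext t
        exact hf_vertF cF cH tt s δ hp hN x t
      rw [h]
      exact Set.ordConnected_Ico
    · have h : {t : ℤ | ∃ y z, hfR cF cH tt s δ t (Sum.inr x) y z} =
          Set.Ico (cH.st x.1 - δ) (cH.st x.1 - δ + (Q : ℤ) * ((cF.p : ℤ) * cF.N) +
            ((cH.p : ℤ) * cH.N - 1)) := by
        ext t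
        exact hf_vertH cF cH tt s δ x t
      rw [h]
      exact Set.ordConnected_Ico
  · rintro (x | x) _
    · rw [hf_vertF cF cH tt s δ hp hN x 0]
      have h1 := cF.T1_mem x.1
      constructor <;> linarith [h1.1, h1.2]
    · rw [hf_vertH cF cH tt s δ x 0]
      have h1 := cH.st_mem x.1
      constructor <;> linarith [h1.1, h1.2]
  · rintro (x | x) _
    · rw [hf_vertF cF cH tt s δ hp hN x, hlenZ]
      have h1 := cF.T1_mem x.1
      constructor <;> linarith [h1.1, h1.2]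
    · rw [hf_vertH cF cH tt s δ x, hlenZ]
      have h1 := cH.st_mem x.1
      constructor <;> linarith [h1.1, h1.2]
  · obtain ⟨a⟩ := ‹Nonempty CF›
    exact ⟨Sum.inl (a, 0), Set.mem_univ _⟩
  · rintro t (x | x) (y | y) (z | z) H
    · exact H.elim
    · exact H.elim
    · exact H.elim
    · exact trivial
    · exact H.elim
    · exact trivial
    · exact ⟨H.1, H.2.1⟩
    · exact H.elim

end Pool.Agent.HAE
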