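import Mathlib
import Pool.Agent.Lib.MP_51ebd4_co.HAE.Defs

set_option autoImplicit false

namespace Pool.Agent.HAE

/-- Transport of a phase along an injection. -/
theorem exists_map {X V : Type} (Φ : Phase X) (f : X → V) (hf : Function.Injective f) :
    ∃ Ψ : Phase V, Ψ.U = f '' Φ.U ∧ Ψ.len = Φ.len ∧
      ∀ t a b c, Ψ.R t a b c ↔ ∃ x y z, f x = a ∧ f y = b ∧ f z = c ∧ Φ.R t x y z := by
  refine ⟨{
    R := fun t a b c => ∃ x y z, f x = a ∧ f y = b ∧ f z = c ∧ Φ.R t x y z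
    U := f '' Φ.U
    len := Φ.len
    symL := ?_
    symR := ?_
    ne := ?_
    uniq := ?_
    supp := ?_
    pair := ?_
    vert := ?_
    at0 := ?_
    atLen := ?_
    nonemp := Φ.nonemp.image f }, rfl, rfl, fun t a b c => Iff.rfl⟩
  · rintro t a b c ⟨x, y, z, h1, h2, h3, h⟩
    exact ⟨y, x, z, h2, h1, h3, Φ.symL _ _ _ _ h⟩
  · rintro t a b c ⟨x, y, z, h1, h2, h3, h⟩
    exact ⟨x, z, y, h1, h3, h2, Φ.symR _ _ _ _ h⟩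
  · rintro t a b c ⟨x, y, z, h1, h2, h3, h⟩ hab
    subst h1 h2
    exact Φ.ne _ _ _ _ h (hf hab)
  · rintro t t' a b c ⟨x, y, z, h1, h2, h3, h⟩ ⟨x', y', z', h1', h2', h3', h'⟩
    subst h1 h2 h3
    rw [hf h1', hf h2', hf h3'] at h'
    exact Φ.uniq _ _ _ _ _ h h'
  · rintro t a b c ⟨x, y, z, h1, h2, h3, h⟩
    exact ⟨x, Φ.supp _ _ _ _ h, h1⟩
  · intro a b
    refine ⟨?_⟩
    rintro t1 ⟨c, x, y, z, h1, h2, h3, h⟩ t2 ⟨c', x', y', z', h1', h2', h3', h'⟩ t ht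
    subst h1 h2
    rw [hf h1', hf h2'] at h'
    obtain ⟨w, hw⟩ := (Φ.pair x y).out ⟨z, h⟩ ⟨z', h'⟩ ht
    exact ⟨f w, x, y, w, rfl, rfl, rfl, hw⟩
  · intro a
    refine ⟨?_⟩
    rintro t1 ⟨b, c, x, y, z, h1, h2, h3, h⟩ t2 ⟨b', c', x', y', z', h1', h2', h3', h'⟩ t ht
    subst h1
    rw [hf h1'] at h'
    obtain ⟨v, w, hw⟩ := (Φ.vert x).out ⟨y, z, h⟩ ⟨y', z', h'⟩ ht
    exact ⟨f v, f w, x, v, w, rfl, rfl, rfl, hw⟩
  · rintro a ⟨x, hx, rfl⟩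
    obtain ⟨y, z, h⟩ := Φ.at0 x hx
    exact ⟨f y, f z, x, y, z, rfl, rfl, rfl, h⟩
  · rintro a ⟨x, hx, rfl⟩
    obtain ⟨y, z, h⟩ := Φ.atLen x hx
    exact ⟨f y, f z, x, y, z, rfl, rfl, rfl, h⟩

end Pool.Agent.HAE
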