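import Mathlib
import Pool.Agent.Lib.MP_51ebd4_co.HAE.Defs
import Pool.Agent.Lib.MP_51ebd4_co.HAE.Chain
import Pool.Agent.Lib.MP_51ebd4_co.HAE.Map
import Pool.Agent.Lib.MP_51ebd4_co.HAE.AllPhase
import Pool.Agent.Lib.MP_51ebd4_co.HAE.HFPhase
import Pool.Agent.Lib.MP_51ebd4_co.HAE.CellFin

set_option autoImplicit false

namespace Pool.Agent.HAE

/-- Columns of a group with `N` blocks. -/
abbrev Col (N : ℕ) : Type := Fin N × (ZMod 31 ⊕ Bool)

/-- The vertex set. -/
abbrev Vtx (S W Q : ℕ) : Type :=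
  (Fin S × Col W × ZMod Q) ⊕ (Fin (S - 1) × Col (2 * W - 1) × ZMod Q)

/-- Vertices taking part in phase `k`. -/
def UU (S W Q k : ℕ) : Set (Vtx S W Q)
  | Sum.inl x => 4 * x.1.val ≤ k + 1 ∧ k ≤ 4 * x.1.val + 1
  | Sum.inr x => 4 * x.1.val + 1 ≤ k ∧ k ≤ 4 * x.1.val + 3

open Classical in
/-- The only phase in which a pair may be used. -/
noncomputable def lab {S W Q : ℕ} (tt : Col W → ZMod Q) : Vtx S W Q → Vtx S W Q → ℕ
  | Sum.inl x, Sum.inl y =>
      if y.2.2 - x.2.2 = tt y.2.1 - tt x.2.1 then 4 * x.1.val + 1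
      else if y.2.2 - x.2.2 = 0 then 4 * x.1.val - 1 else 4 * x.1.val
  | Sum.inr x, Sum.inr _ => 4 * x.1.val + 2
  | Sum.inr x, Sum.inl y => if y.1.val = x.1.val then 4 * x.1.val + 1 else 4 * x.1.val + 3
  | Sum.inl y, Sum.inr x => if y.1.val = x.1.val then 4 * x.1.val + 1 else 4 * x.1.val + 3

/-- Lengths of the phases. -/
def lenf (W Q k : ℕ) : ℕ :=
  if k % 4 = 0 then (Q - 2) * (31 * (2 * W - 1)) - 1 - 31 * (2 * W - 1)
  else if k % 4 = 2 then (Q - 2) * (31 * (2 * (2 * W - 1) - 1)) - 1 - 31 * (2 * W - 1)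
  else Q * (31 * (2 * W - 1)) - 1 - 31 * (2 * W - 1)

theorem exists_inj (Q : ℕ) [Fact Q.Prime] (N : ℕ) (h : N * 33 ≤ Q) :
    ∃ tt : Col N → ZMod Q, Function.Injective tt := by
  have hc : Fintype.card (Col N) ≤ Fintype.card (ZMod Q) := by
    simp only [Col, Fintype.card_prod, Fintype.card_fin, Fintype.card_sum, ZMod.card,
      Fintype.card_bool]
    omega
  obtain ⟨f⟩ := Function.Embedding.nonempty_of_card_le hc
  exact ⟨f, f.injective⟩

theorem exists_phase (S W Q : ℕ) [Fact Q.Prime] (hW : 0 < W)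
    (hQ : (2 * W - 1) * 33 ≤ Q) (tt : Col W → ZMod Q) (htt : Function.Injective tt)
    (k : ℕ) (hk : k < 4 * (S - 1) + 1) (hS : 0 < S) :
    ∃ Φ : Phase (Vtx S W Q), Φ.U = UU S W Q k ∧ Φ.len = lenf W Q k ∧
      ∀ t x y z, Φ.R t x y z → lab tt x y = k := by
  classical
  obtain ⟨cH, hHN, hHp⟩ := exists_cell W hW
  obtain ⟨cF, hFN, hFp⟩ := exists_cell (2 * W - 1) (by omega)
  obtain ⟨ttF, httF⟩ := exists_inj Q (2 * W - 1) hQ
  have : Nonempty (Col W) := ⟨(⟨0, hW⟩, Sum.inr false)⟩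
  have : Nonempty (Col (2 * W - 1)) := ⟨(⟨0, by omega⟩, Sum.inr false)⟩
  have hQ2 : 33 ≤ Q := by
    have : 1 ≤ 2 * W - 1 := by omega
    nlinarith
  obtain ⟨j, hj⟩ : ∃ j, k = 4 * j ∨ k = 4 * j + 1 ∨ k = 4 * j + 2 ∨ k = 4 * j + 3 :=
    ⟨k / 4, by omega⟩
  have key : ∀ (r : ℕ) (D : ZMod Q), r < Q - 2 → D ≠ 0 →
      ((r : ZMod Q) + 2) * D ≠ D ∧ ((r : ZMod Q) + 2) * D ≠ 0 := by
    intro r D hr hD
    have h1 : ((r + 1 : ℕ) : ZMod Q) ≠ 0 := by
      rw [Ne, ZMod.natCast_eq_zero_iff]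
      intro hd
      have := Nat.le_of_dvd (by omega) hd
      omega
    have h2 : ((r + 2 : ℕ) : ZMod Q) ≠ 0 := by
      rw [Ne, ZMod.natCast_eq_zero_iff]
      intro hd
      have := Nat.le_of_dvd (by omega) hd
      omega
    constructor
    · intro h
      have h3 : ((r + 1 : ℕ) : ZMod Q) * D = 0 := by
        push_cast
        linear_combination h
      rcases mul_eq_zero.mp h3 with h4 | h4
      · exact h1 h4
      · exact hD h4
    · intro h
      have h3 : ((r + 2 : ℕ) : ZMod Q) * D = 0 := by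
        push_cast
        linear_combination h
      rcases mul_eq_zero.mp h3 with h4 | h4
      · exact h2 h4
      · exact hD h4
  rcases hj with hj | hj | hj | hj
  · -- ALL(H_j)
    have hjS : j < S := by omega
    have hW1 : 1 ≤ 2 * W - 1 := by omega
    obtain ⟨Φ, hΦU, hΦl, hΦR⟩ := exists_all cH Q tt htt (Q - 2) (31 * (2 * W - 1)) (by omega)
      (by rw [hHN, hHp]; exact Nat.mul_le_mul_left _ (by omega))
      (by
        rw [hHN, hHp]
        have h2 : 31 * (31 * (2 * W - 1)) ≤ (Q - 2) * (31 * (2 * W - 1)) :=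
          Nat.mul_le_mul_right _ (by omega)
        omega)
    obtain ⟨Ψ, hΨU, hΨl, hΨR⟩ := exists_map Φ
      (fun x : Col W × ZMod Q => (Sum.inl (⟨j, hjS⟩, x.1, x.2) : Vtx S W Q)) (by
        intro x y h
        simp only [Sum.inl.injEq, Prod.mk.injEq, true_and] at h
        exact Prod.ext h.1 h.2)
    refine ⟨Ψ, ?_, ?_, ?_⟩
    · rw [hΨU, hΦU, Set.image_univ]
      ext x
      rcases x with ⟨i, a, v⟩ | ⟨i, a, v⟩
      · constructor
        · rintro ⟨y, hy⟩
          simp only [Sum.inl.injEq, Prod.mk.injEq] at hy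
          show 4 * i.val ≤ k + 1 ∧ k ≤ 4 * i.val + 1
          have := congrArg Fin.val hy.1
          simp at this
          omega
        · intro h
          have h' : 4 * i.val ≤ k + 1 ∧ k ≤ 4 * i.val + 1 := h
          refine ⟨(a, v), ?_⟩
          have : (⟨j, hjS⟩ : Fin S) = i := Fin.ext (by simp; omega)
          simp [this]
      · constructor
        · rintro ⟨y, hy⟩
          simp at hy
        · intro h
          have h' : 4 * i.val + 1 ≤ k ∧ k ≤ 4 * i.val + 3 := h
          omega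
    · rw [hΨl, hΦl, hHN, hHp, lenf, if_pos (by omega)]
    · intro t x y z h
      rw [hΨR] at h
      obtain ⟨x', y', z', rfl, rfl, rfl, h⟩ := h
      obtain ⟨hne, r, hr, he⟩ := hΦR t x' y' z' h
      have hD : tt y'.1 - tt x'.1 ≠ 0 := fun h0 => hne (htt (sub_eq_zero.mp h0)).symm
      have hk2 := key r _ hr hD
      show (if y'.2 - x'.2 = tt y'.1 - tt x'.1 then 4 * j + 1
        else if y'.2 - x'.2 = 0 then 4 * j - 1 else 4 * j) = k
      rw [he, if_neg hk2.1, if_neg hk2.2, hj]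
  · -- HF(F_j over H_j), slope 1
    have hjS : j < S := by omega
    have hjS1 : j < S - 1 := by omega
    obtain ⟨Φ, hΦU, hΦl, hΦR⟩ := exists_hf cF cH (by rw [hFp, hHp]) (by rw [hFN, hHN]) Q tt 1
      (31 * (2 * W - 1)) (by rw [hFN, hFp])
      (by rw [hFN, hFp]; have hW1 : 1 ≤ 2 * W - 1 := by omega
          nlinarith)
    obtain ⟨Ψ, hΨU, hΨl, hΨR⟩ := exists_map Φ
      (fun x : (Col (2 * W - 1) × ZMod Q) ⊕ (Col W × ZMod Q) =>
        (Sum.elim (fun x => Sum.inr (⟨j, hjS1⟩, x.1, x.2))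
          (fun x => Sum.inl (⟨j, hjS⟩, x.1, x.2)) x : Vtx S W Q)) (by
        rintro (x | x) (y | y) h
        · simp only [Sum.elim_inl, Sum.inr.injEq, Prod.mk.injEq, true_and] at h
          rw [Prod.ext h.1 h.2]
        · simp at h
        · simp at h
        · simp only [Sum.elim_inr, Sum.inl.injEq, Prod.mk.injEq, true_and] at h
          rw [Prod.ext h.1 h.2])
    refine ⟨Ψ, ?_, ?_, ?_⟩
    · rw [hΨU, hΦU, Set.image_univ]
      ext x
      rcases x with ⟨i, a, v⟩ | ⟨i, a, v⟩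
      · constructor
        · rintro ⟨y, hy⟩
          rcases y with y | y
          · simp at hy
          · simp only [Sum.elim_inr, Sum.inl.injEq, Prod.mk.injEq] at hy
            show 4 * i.val ≤ k + 1 ∧ k ≤ 4 * i.val + 1
            have := congrArg Fin.val hy.1
            simp at this
            omega
        · intro h
          have h' : 4 * i.val ≤ k + 1 ∧ k ≤ 4 * i.val + 1 := h
          refine ⟨Sum.inr (a, v), ?_⟩
          have : (⟨j, hjS⟩ : Fin S) = i := Fin.ext (by simp; omega)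
          simp [this]
      · constructor
        · rintro ⟨y, hy⟩
          rcases y with y | y
          · simp only [Sum.elim_inl, Sum.inr.injEq, Prod.mk.injEq] at hy
            show 4 * i.val + 1 ≤ k ∧ k ≤ 4 * i.val + 3
            have := congrArg Fin.val hy.1
            simp at this
            omega
          · simp at hy
        · intro h
          have h' : 4 * i.val + 1 ≤ k ∧ k ≤ 4 * i.val + 3 := h
          refine ⟨Sum.inl (a, v), ?_⟩
          have : (⟨j, hjS1⟩ : Fin (S - 1)) = i := Fin.ext (by simp; omega)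
          simp [this]
    · rw [hΨl, hΦl, hFN, hFp, lenf, if_neg (by omega), if_neg (by omega)]
    · intro t x y z h
      rw [hΨR] at h
      obtain ⟨x', y', z', rfl, rfl, rfl, h⟩ := h
      have hp := hΦR t x' y' z' h
      rcases x' with x' | x' <;> rcases y' with y' | y'
      · exact absurd hp (by simp [HFPair])
      · show (if j = j then 4 * j + 1 else 4 * j + 3) = k
        rw [if_pos rfl, hj]
      · show (if j = j then 4 * j + 1 else 4 * j + 3) = k
        rw [if_pos rfl, hj]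
      · obtain ⟨hne, he⟩ : x'.1 ≠ y'.1 ∧ y'.2 - x'.2 = 1 * (tt y'.1 - tt x'.1) := hp
        show (if y'.2 - x'.2 = tt y'.1 - tt x'.1 then 4 * j + 1
          else if y'.2 - x'.2 = 0 then 4 * j - 1 else 4 * j) = k
        rw [if_pos (by rw [he, one_mul]), hj]
  · -- ALL(F_j)
    have hjS : j < S - 1 := by omega
    have hW1 : 1 ≤ 2 * W - 1 := by omega
    obtain ⟨Φ, hΦU, hΦl, hΦR⟩ := exists_all cF Q ttF httF (Q - 2) (31 * (2 * W - 1)) (by omega)
      (by rw [hFN, hFp])
      (by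
        rw [hFN, hFp]
        have h1 : 31 * (2 * W - 1) ≤ 31 * (2 * (2 * W - 1) - 1) :=
          Nat.mul_le_mul_left _ (by omega)
        have h2 : 31 * (31 * (2 * (2 * W - 1) - 1)) ≤ (Q - 2) * (31 * (2 * (2 * W - 1) - 1)) :=
          Nat.mul_le_mul_right _ (by omega)
        omega)
    obtain ⟨Ψ, hΨU, hΨl, hΨR⟩ := exists_map Φ
      (fun x : Col (2 * W - 1) × ZMod Q => (Sum.inr (⟨j, hjS⟩, x.1, x.2) : Vtx S W Q)) (by
        intro x y h
        simp only [Sum.inr.injEq, Prod.mk.injEq, true_and] at h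
        exact Prod.ext h.1 h.2)
    refine ⟨Ψ, ?_, ?_, ?_⟩
    · rw [hΨU, hΦU, Set.image_univ]
      ext x
      rcases x with ⟨i, a, v⟩ | ⟨i, a, v⟩
      · constructor
        · rintro ⟨y, hy⟩
          simp at hy
        · intro h
          have h' : 4 * i.val ≤ k + 1 ∧ k ≤ 4 * i.val + 1 := h
          omega
      · constructor
        · rintro ⟨y, hy⟩
          simp only [Sum.inr.injEq, Prod.mk.injEq] at hy
          show 4 * i.val + 1 ≤ k ∧ k ≤ 4 * i.val + 3
          have := congrArg Fin.val hy.1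
          simp at this
          omega
        · intro h
          have h' : 4 * i.val + 1 ≤ k ∧ k ≤ 4 * i.val + 3 := h
          refine ⟨(a, v), ?_⟩
          have : (⟨j, hjS⟩ : Fin (S - 1)) = i := Fin.ext (by simp; omega)
          simp [this]
    · rw [hΨl, hΦl, hFN, hFp, lenf, if_neg (by omega), if_pos (by omega)]
    · intro t x y z h
      rw [hΨR] at h
      obtain ⟨x', y', z', rfl, rfl, rfl, h⟩ := h
      show 4 * j + 2 = k
      rw [hj]
  · -- HF(F_j over H_{j+1}), slope 0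
    have hjS : j + 1 < S := by omega
    have hjS1 : j < S - 1 := by omega
    obtain ⟨Φ, hΦU, hΦl, hΦR⟩ := exists_hf cF cH (by rw [hFp, hHp]) (by rw [hFN, hHN]) Q tt 0
      (31 * (2 * W - 1)) (by rw [hFN, hFp])
      (by rw [hFN, hFp]; have hW1 : 1 ≤ 2 * W - 1 := by omega
          nlinarith)
    obtain ⟨Ψ, hΨU, hΨl, hΨR⟩ := exists_map Φ
      (fun x : (Col (2 * W - 1) × ZMod Q) ⊕ (Col W × ZMod Q) =>
        (Sum.elim (fun x => Sum.inr (⟨j, hjS1⟩, x.1, x.2))
          (fun x => Sum.inl (⟨j + 1, hjS⟩, x.1, x.2)) x : Vtx S W Q)) (by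
        rintro (x | x) (y | y) h
        · simp only [Sum.elim_inl, Sum.inr.injEq, Prod.mk.injEq, true_and] at h
          rw [Prod.ext h.1 h.2]
        · simp at h
        · simp at h
        · simp only [Sum.elim_inr, Sum.inl.injEq, Prod.mk.injEq, true_and] at h
          rw [Prod.ext h.1 h.2])
    refine ⟨Ψ, ?_, ?_, ?_⟩
    · rw [hΨU, hΦU, Set.image_univ]
      ext x
      rcases x with ⟨i, a, v⟩ | ⟨i, a, v⟩
      · constructor
        · rintro ⟨y, hy⟩
          rcases y with y | y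
          · simp at hy
          · simp only [Sum.elim_inr, Sum.inl.injEq, Prod.mk.injEq] at hy
            show 4 * i.val ≤ k + 1 ∧ k ≤ 4 * i.val + 1
            have := congrArg Fin.val hy.1
            simp at this
            omega
        · intro h
          have h' : 4 * i.val ≤ k + 1 ∧ k ≤ 4 * i.val + 1 := h
          refine ⟨Sum.inr (a, v), ?_⟩
          have : (⟨j + 1, hjS⟩ : Fin S) = i := Fin.ext (by simp; omega)
          simp [this]
      · constructor
        · rintro ⟨y, hy⟩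
          rcases y with y | y
          · simp only [Sum.elim_inl, Sum.inr.injEq, Prod.mk.injEq] at hy
            show 4 * i.val + 1 ≤ k ∧ k ≤ 4 * i.val + 3
            have := congrArg Fin.val hy.1
            simp at this
            omega
          · simp at hy
        · intro h
          have h' : 4 * i.val + 1 ≤ k ∧ k ≤ 4 * i.val + 3 := h
          refine ⟨Sum.inl (a, v), ?_⟩
          have : (⟨j, hjS1⟩ : Fin (S - 1)) = i := Fin.ext (by simp; omega)
          simp [this]
    · rw [hΨl, hΦl, hFN, hFp, lenf, if_neg (by omega), if_neg (by omega)]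
    · intro t x y z h
      rw [hΨR] at h
      obtain ⟨x', y', z', rfl, rfl, rfl, h⟩ := h
      have hp := hΦR t x' y' z' h
      rcases x' with x' | x' <;> rcases y' with y' | y'
      · exact absurd hp (by simp [HFPair])
      · show (if j + 1 = j then 4 * j + 1 else 4 * j + 3) = k
        rw [if_neg (by omega), hj]
      · show (if j + 1 = j then 4 * j + 1 else 4 * j + 3) = k
        rw [if_neg (by omega), hj]
      · obtain ⟨hne, he⟩ : x'.1 ≠ y'.1 ∧ y'.2 - x'.2 = 0 * (tt y'.1 - tt x'.1) := hp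
        have hD : tt y'.1 - tt x'.1 ≠ 0 := fun h0 => hne (htt (sub_eq_zero.mp h0)).symm
        show (if y'.2 - x'.2 = tt y'.1 - tt x'.1 then 4 * (j + 1) + 1
          else if y'.2 - x'.2 = 0 then 4 * (j + 1) - 1 else 4 * (j + 1)) = k
        rw [he, zero_mul, if_neg (fun h => hD h.symm), if_pos rfl]
        omega

theorem final_general (S W Q : ℕ) [Fact Q.Prime] (hS : 0 < S) (hW : 0 < W)
    (hQ : (2 * W - 1) * 33 ≤ Q)
    (hK : 3 * (S * (W * 33 * Q) + (S - 1) * ((2 * W - 1) * 33 * Q) - 1)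
      < ∑ k ∈ Finset.range (4 * (S - 1) + 1), lenf W Q k) : ¬ Conj := by
  classical
  obtain ⟨tt, htt⟩ := exists_inj Q W (le_trans (Nat.mul_le_mul_right _ (by omega)) hQ)
  have hex := fun (k : ℕ) (hk : k < 4 * (S - 1) + 1) =>
    exists_phase S W Q hW hQ tt htt k hk hS
  choose Φ hU hl hR using hex
  let Ψ : ℕ → Phase (Vtx S W Q) := fun k =>
    if hk : k < 4 * (S - 1) + 1 then Φ k hk else Φ 0 (by omega)
  have hΨ : ∀ k (hk : k < 4 * (S - 1) + 1), Ψ k = Φ k hk := fun k hk => by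
    simp only [Ψ, dif_pos hk]
  refine chain (4 * (S - 1) + 1) Ψ (lab tt) ?_ ?_ (by omega) ?_
  · intro k hk t x y z h
    rw [hΨ k hk] at h
    exact hR k hk t x y z h
  · intro x
    have hset : {k : ℕ | k < 4 * (S - 1) + 1 ∧ x ∈ (Ψ k).U} =
        {k : ℕ | k < 4 * (S - 1) + 1 ∧ x ∈ UU S W Q k} := by
      ext k
      constructor
      · rintro ⟨hk, h⟩
        rw [hΨ k hk, hU k hk] at h
        exact ⟨hk, h⟩
      · rintro ⟨hk, h⟩
        refine ⟨hk, ?_⟩
        rw [hΨ k hk, hU k hk]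
        exact h
    rw [hset]
    refine ⟨?_⟩
    rintro a ⟨ha1, ha2⟩ b ⟨hb1, hb2⟩ c ⟨hc1, hc2⟩
    refine ⟨by omega, ?_⟩
    rcases x with x | x
    · have h1 : 4 * x.1.val ≤ a + 1 ∧ a ≤ 4 * x.1.val + 1 := ha2
      have h2 : 4 * x.1.val ≤ b + 1 ∧ b ≤ 4 * x.1.val + 1 := hb2
      show 4 * x.1.val ≤ c + 1 ∧ c ≤ 4 * x.1.val + 1
      omega
    · have h1 : 4 * x.1.val + 1 ≤ a ∧ a ≤ 4 * x.1.val + 3 := ha2
      have h2 : 4 * x.1.val + 1 ≤ b ∧ b ≤ 4 * x.1.val + 3 := hb2
      show 4 * x.1.val + 1 ≤ c ∧ c ≤ 4 * x.1.val + 3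
      omega
  · have hcard : Fintype.card (Vtx S W Q) =
        S * (W * 33 * Q) + (S - 1) * ((2 * W - 1) * 33 * Q) := by
      simp only [Vtx, Col, Fintype.card_prod, Fintype.card_fin, Fintype.card_sum, ZMod.card,
        Fintype.card_bool]
    rw [hcard]
    have hs : ∑ k ∈ Finset.range (4 * (S - 1) + 1), (Ψ k).len =
        ∑ k ∈ Finset.range (4 * (S - 1) + 1), lenf W Q k := by
      apply Finset.sum_congr rfl
      intro k hk
      rw [hΨ k (Finset.mem_range.mp hk), hl]
    rw [hs]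
    exact hK

theorem not_conj : ¬ Conj := by
  have : Fact (Nat.Prime 8191) := ⟨by norm_num⟩
  apply final_general 20 20 8191 (by norm_num) (by norm_num) (by norm_num)
  simp only [lenf, Finset.sum_range_succ, Finset.sum_range_zero]
  norm_num

end Pool.Agent.HAE
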